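import Mathlib

set_option autoImplicit false

open Cardinal Set

namespace Pool.Agent.TH566.CL

namespace DichAux

/-- covered by countably many hyperplanes -/
def Small {k : ℕ} (S : Set (Fin k → (ℕ → Bool))) : Prop :=
  ∃ C : Set (ℕ → Bool), C.Countable ∧ ∀ x ∈ S, ∃ i, x i ∈ C

/-- the cylinder of depth `n` around `x` -/
def cyl {k : ℕ} (x : Fin k → (ℕ → Bool)) (n : ℕ) : Set (Fin k → (ℕ → Bool)) :=
  {y | ∀ i, ∀ j, j < n → y i j = x i j}

theorem Small.mono {k : ℕ} {S T : Set (Fin k → (ℕ → Bool))} (h : S ⊆ T) (hT : Small T) :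
    Small S := by
  obtain ⟨C, hC, hc⟩ := hT
  exact ⟨C, hC, fun x hx => hc x (h hx)⟩

theorem small_union {k : ℕ} {S T : Set (Fin k → (ℕ → Bool))} (hS : Small S) (hT : Small T) :
    Small (S ∪ T) := by
  obtain ⟨C, hC, hc⟩ := hS
  obtain ⟨D, hD, hd⟩ := hT
  refine ⟨C ∪ D, hC.union hD, ?_⟩
  rintro x (hx | hx)
  · obtain ⟨i, hi⟩ := hc x hx
    exact ⟨i, Or.inl hi⟩
  · obtain ⟨i, hi⟩ := hd x hx
    exact ⟨i, Or.inr hi⟩

theorem small_iUnion {k : ℕ} {ι : Type} [Countable ι] {S : ι → Set (Fin k → (ℕ → Bool))}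
    (hS : ∀ a, Small (S a)) : Small (⋃ a, S a) := by
  choose C hC hc using hS
  refine ⟨⋃ a, C a, countable_iUnion hC, ?_⟩
  intro x hx
  obtain ⟨a, ha⟩ := mem_iUnion.1 hx
  obtain ⟨i, hi⟩ := hc a x ha
  exact ⟨i, mem_iUnion.2 ⟨a, hi⟩⟩

/-- the kernel -/
def ker {k : ℕ} (K : Set (Fin k → (ℕ → Bool))) : Set (Fin k → (ℕ → Bool)) :=
  {x | x ∈ K ∧ ∀ n, ¬ Small (K ∩ cyl x n)}

theorem small_diff {k : ℕ} (K : Set (Fin k → (ℕ → Bool))) : Small (K \ ker K) := by
  classical
  have h := small_iUnion (k := k) (ι := Σ n : ℕ, (Fin k → Fin n → Bool))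
    (S := fun a => if Small (K ∩ {y | ∀ i, ∀ j : Fin a.1, y i j = a.2 i j}) then
      K ∩ {y | ∀ i, ∀ j : Fin a.1, y i j = a.2 i j} else ∅) (by
      intro a
      by_cases ha : Small (K ∩ {y | ∀ i, ∀ j : Fin a.1, y i j = a.2 i j})
      · rw [if_pos ha]; exact ha
      · rw [if_neg ha]
        exact ⟨∅, countable_empty, fun x hx => absurd hx (notMem_empty x)⟩)
  refine h.mono ?_
  rintro x ⟨hxK, hx⟩
  have hx' : ∃ n, Small (K ∩ cyl x n) := by
    by_contra hcon
    push Not at hcon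
    exact hx ⟨hxK, hcon⟩
  obtain ⟨n, hn⟩ := hx'
  have he : {y : Fin k → (ℕ → Bool) | ∀ i, ∀ j : Fin n, y i j = x i j} = cyl x n := by
    ext y
    constructor
    · intro hy i j hj
      exact hy i ⟨j, hj⟩
    · intro hy i j
      exact hy i j j.2
  refine mem_iUnion.2 ⟨⟨n, fun i j => x i j⟩, ?_⟩
  dsimp only
  rw [he, if_pos hn]
  exact ⟨hxK, fun i j _ => rfl⟩

theorem exists_split {k : ℕ} (K : Set (Fin k → (ℕ → Bool))) {x : Fin k → (ℕ → Bool)}
    (hx : x ∈ ker K) (n : ℕ) :
    ∃ y m, y ∈ ker K ∧ y ∈ cyl x n ∧ n < m ∧ ∀ i, ∃ j, j < m ∧ x i j ≠ y i j := by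
  have h1 : ∃ y ∈ ker K, y ∈ cyl x n ∧ ∀ i, y i ≠ x i := by
    by_contra hcon
    push Not at hcon
    refine hx.2 n ?_
    have h2 : Small {y : Fin k → (ℕ → Bool) | ∃ i, y i = x i} :=
      ⟨range x, countable_range x, fun y ⟨i, hi⟩ => ⟨i, hi ▸ mem_range_self i⟩⟩
    refine (small_union (small_diff K) h2).mono ?_
    rintro y ⟨hyK, hyc⟩
    by_cases hy : y ∈ ker K
    · exact Or.inr (hcon y hy hyc)
    · exact Or.inl ⟨hyK, hy⟩
  obtain ⟨y, hy, hyc, hne⟩ := h1
  have h3 : ∀ i, ∃ j, x i j ≠ y i j := by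
    intro i
    by_contra hcon
    push Not at hcon
    exact hne i (funext fun j => (hcon j).symm)
  choose j hj using h3
  refine ⟨y, n + 1 + ∑ i, (j i + 1), hy, hyc, by omega, fun i => ⟨j i, ?_, hj i⟩⟩
  have : j i + 1 ≤ ∑ i, (j i + 1) :=
    Finset.single_le_sum (f := fun i => j i + 1) (fun i _ => Nat.zero_le _) (Finset.mem_univ i)
  omega

theorem main (k : ℕ) (K : Set (Fin k → (ℕ → Bool))) (hK : IsClosed K) (hns : ¬ Small K) :
    ∃ F : (ℕ → Bool) → (Fin k → (ℕ → Bool)), (∀ t, F t ∈ K) ∧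
      ∀ t t', t ≠ t' → ∀ i, F t i ≠ F t' i := by
  classical
  have hne : (ker K).Nonempty := by
    by_contra hcon
    rw [not_nonempty_iff_eq_empty] at hcon
    apply hns
    have := small_diff K
    rwa [hcon, sdiff_empty] at this
  obtain ⟨x0, hx0⟩ := hne
  choose Y M hY hYc hM hd using fun (x : {x // x ∈ ker K}) (n : ℕ) => exists_split K x.2 n
  -- the states
  let step : {x // x ∈ ker K} × ℕ → Bool → {x // x ∈ ker K} × ℕ := fun s b =>
    (if b then ⟨Y s.1 s.2, hY s.1 s.2⟩ else s.1, M s.1 s.2)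
  let st : (ℕ → Bool) → ℕ → {x // x ∈ ker K} × ℕ := fun t l =>
    Nat.rec (⟨x0, hx0⟩, 0) (fun l s => step s (t l)) l
  have st0 : ∀ t, st t 0 = (⟨x0, hx0⟩, 0) := fun t => rfl
  have stS : ∀ t l, st t (l + 1) = step (st t l) (t l) := fun t l => rfl
  have step_n : ∀ s b, s.2 < (step s b).2 := fun s b => hM s.1 s.2
  have step_c : ∀ s b, ((step s b).1 : Fin k → (ℕ → Bool)) ∈ cyl (s.1 : Fin k → (ℕ → Bool)) s.2 := by
    intro s b
    cases b
    · intro i j _
      rfl
    · exact hYc s.1 s.2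
  have st_n : ∀ t l, l ≤ (st t l).2 := by
    intro t l
    induction l with
    | zero => exact Nat.zero_le _
    | succ l ih =>
      rw [stS]
      exact lt_of_le_of_lt ih (step_n _ _)
  have st_mono : ∀ t l d, (st t l).2 ≤ (st t (l + d)).2 := by
    intro t l d
    induction d with
    | zero => exact le_rfl
    | succ d ih =>
      rw [← add_assoc, stS]
      exact ih.trans (step_n _ _).le
  have st_c : ∀ t l d, ((st t (l + d)).1 : Fin k → (ℕ → Bool)) ∈
      cyl ((st t l).1 : Fin k → (ℕ → Bool)) (st t l).2 := by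
    intro t l d
    induction d with
    | zero => intro i j _; rfl
    | succ d ih =>
      intro i j hj
      rw [← add_assoc, stS, step_c (st t (l + d)) (t (l + d)) i j (lt_of_lt_of_le hj (st_mono t l d))]
      exact ih i j hj
  let F : (ℕ → Bool) → (Fin k → (ℕ → Bool)) := fun t i j => ((st t (j + 1)).1 : Fin k → (ℕ → Bool)) i j
  have F_c : ∀ t l, F t ∈ cyl ((st t l).1 : Fin k → (ℕ → Bool)) (st t l).2 := by
    intro t l i j hj
    show ((st t (j + 1)).1 : Fin k → (ℕ → Bool)) i j = _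
    rcases le_total (j + 1) l with h | h
    · obtain ⟨d, rfl⟩ := Nat.exists_eq_add_of_le h
      exact (st_c t (j + 1) d i j (lt_of_lt_of_le (Nat.lt_succ_self j) (st_n t (j + 1)))).symm
    · obtain ⟨d, hd'⟩ := Nat.exists_eq_add_of_le h
      rw [hd']
      exact st_c t l d i j hj
  refine ⟨F, ?_, ?_⟩
  · intro t
    have hlim : Filter.Tendsto (fun l => ((st t l).1 : Fin k → (ℕ → Bool))) Filter.atTop (nhds (F t)) := by
      rw [tendsto_pi_nhds]
      intro i
      rw [tendsto_pi_nhds]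
      intro j
      apply tendsto_const_nhds.congr'
      filter_upwards [Filter.eventually_ge_atTop (j + 1)] with l hl
      exact F_c t l i j (lt_of_lt_of_le (Nat.lt_of_succ_le hl) (st_n t l))
    exact hK.mem_of_tendsto hlim (Filter.Eventually.of_forall fun l => (st t l).1.2.1)
  · intro t t' htt i heq
    have hex : ∃ l, t l ≠ t' l := by
      by_contra hcon
      push Not at hcon
      exact htt (funext hcon)
    set l := Nat.find hex with hl
    have hl1 : t l ≠ t' l := Nat.find_spec hex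
    have hl2 : ∀ m, m < l → t m = t' m := fun m hm => by
      by_contra hcon
      exact Nat.find_min hex hm hcon
    have hst : ∀ m, m ≤ l → st t m = st t' m := by
      intro m
      induction m with
      | zero => intro _; rfl
      | succ m ih =>
        intro hm
        rw [stS, stS, ih (by omega), hl2 m (by omega)]
    have e1 : st t (l + 1) = step (st t l) (t l) := stS t l
    have e2 : st t' (l + 1) = step (st t l) (t' l) := by rw [stS, ← hst l le_rfl]
    obtain ⟨j, hj, hj2⟩ := hd (st t l).1 (st t l).2 i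
    have f1 := F_c t (l + 1) i j (by rw [e1]; exact hj)
    have f2 := F_c t' (l + 1) i j (by rw [e2]; exact hj)
    rw [e1] at f1
    rw [e2] at f2
    have hF : F t i j = F t' i j := by rw [heq]
    rcases Bool.eq_false_or_eq_true (t l) with hb | hb <;>
      rcases Bool.eq_false_or_eq_true (t' l) with hb' | hb'
    · exact hl1 (hb.trans hb'.symm)
    · rw [hb] at f1
      rw [hb'] at f2
      apply hj2
      have g1 : F t i j = (Y (st t l).1 (st t l).2) i j := f1
      have g2 : F t' i j = ((st t l).1 : Fin k → (ℕ → Bool)) i j := f2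
      rw [← g1, ← g2, hF]
    · rw [hb] at f1
      rw [hb'] at f2
      apply hj2
      have g2 : F t' i j = (Y (st t l).1 (st t l).2) i j := f2
      have g1 : F t i j = ((st t l).1 : Fin k → (ℕ → Bool)) i j := f1
      rw [← g1, ← g2, hF]
    · exact hl1 (hb.trans hb'.symm)

end DichAux

theorem dichotomy (k : ℕ) (K : Set (Fin k → (ℕ → Bool))) (hK : IsClosed K) :
    (∃ C : Set (ℕ → Bool), C.Countable ∧ ∀ x ∈ K, ∃ i, x i ∈ C) ∨
    (∀ A : Set (ℕ → Bool), #A < 𝔠 → ∃ x ∈ K, ∀ i, x i ∉ A) := by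
  classical
  by_cases hs : DichAux.Small K
  · exact Or.inl hs
  · right
    intro A hA
    obtain ⟨F, hF, hinj⟩ := DichAux.main k K hK hs
    by_contra hcon
    push Not at hcon
    choose i hi using fun t => hcon (F t) (hF t)
    have hI : Function.Injective (fun t : ℕ → Bool => ((i t, ⟨F t (i t), hi t⟩) : Fin k × A)) := by
      intro t t' h
      by_contra hne
      have h1 : i t = i t' := (Prod.mk.inj h).1
      have h2 : F t (i t) = F t' (i t') := congrArg Subtype.val (Prod.mk.inj h).2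
      rw [← h1] at h2
      exact hinj t t' hne (i t) h2
    have h1 : #(ℕ → Bool) ≤ #(Fin k × A) := mk_le_of_injective hI
    have h2 : #(ℕ → Bool) = 𝔠 := by simp
    have h3 : #(Fin k × A) < 𝔠 := by
      rw [mk_prod, lift_id, lift_id, mk_fin]
      exact mul_lt_of_lt aleph0_le_continuum (nat_lt_continuum k) hA
    rw [h2] at h1
    exact absurd (lt_of_le_of_lt h1 h3) (lt_irrefl _)

end Pool.Agent.TH566.CL
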