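import Mathlib
set_option autoImplicit false
open Cardinal Set
namespace Pool.Agent.TH566.CL

private theorem exists_rec {I : Type} [LinearOrder I] [WellFoundedLT I] {β : Type}
    (P : (ξ : I) → ((η : I) → η < ξ → β) → β → Prop) (h : ∀ ξ f, ∃ b, P ξ f b) :
    ∃ F : I → β, ∀ ξ, P ξ (fun η _ => F η) (F ξ) := by
  classical
  choose g hg using h
  have wf : WellFounded (fun a b : I => a < b) := wellFounded_lt
  refine ⟨wf.fix (fun ξ f => g ξ (fun η hη => f η hη)), fun ξ => ?_⟩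
  rw [wf.fix_eq]
  exact hg ξ _

private theorem card_closed_le (X : Type) [TopologicalSpace X] [SecondCountableTopology X] :
    #{K : Set X // IsClosed K} ≤ 𝔠 := by
  classical
  let bs := TopologicalSpace.countableBasis X
  have hb := TopologicalSpace.isBasis_countableBasis X
  have hc : Countable bs := (TopologicalSpace.countable_countableBasis X).to_subtype
  let φ : {K : Set X // IsClosed K} → Set bs := fun K => {b | (b : Set X) ⊆ K.1ᶜ}
  have hφ : Function.Injective φ := by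
    intro K L hKL
    apply Subtype.ext
    have key : ∀ K : {K : Set X // IsClosed K}, K.1ᶜ = ⋃ b ∈ φ K, (b : Set X) := by
      intro K
      ext x
      simp only [mem_iUnion]
      constructor
      · intro hx
        obtain ⟨v, hv, hxv, hvK⟩ := hb.exists_subset_of_mem_open hx K.2.isOpen_compl
        exact ⟨⟨v, hv⟩, hvK, hxv⟩
      · rintro ⟨b, hb', hxb⟩
        exact hb' hxb
    have : K.1ᶜ = L.1ᶜ := by rw [key K, key L, hKL]
    exact compl_injective this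
  calc #{K : Set X // IsClosed K} ≤ #(Set bs) := mk_le_of_injective hφ
    _ = 2 ^ #(bs) := mk_set
    _ ≤ 2 ^ ℵ₀ := power_le_power_left two_ne_zero (mk_le_aleph0)
    _ = 𝔠 := two_power_aleph0

theorem exists_good_of (dichotomy : ∀ (k : ℕ) (K : Set (Fin k → (ℕ → Bool))), IsClosed K →
    (∃ C : Set (ℕ → Bool), C.Countable ∧ ∀ x ∈ K, ∃ i, x i ∈ C) ∨
    (∀ A : Set (ℕ → Bool), #A < 𝔠 → ∃ x ∈ K, ∀ i, x i ∉ A)) :
    ∃ B : Set (ℕ → Bool), #B = 𝔠 ∧
    ∀ (k : ℕ) (K : Set (Fin k → (ℕ → Bool))), IsClosed K → (∀ x ∈ K, ∃ i, x i ∈ B) →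
      ∃ C : Set (ℕ → Bool), C.Countable ∧ ∀ x ∈ K, ∃ i, x i ∈ C := by
  classical
  let I := (𝔠 : Cardinal.{0}).ord.ToType
  have hI : #I = 𝔠 := by simp [I]
  have hpi : #(ℕ → Bool) = 𝔠 := by simp
  let F := {p : Σ k : ℕ, {K : Set (Fin k → (ℕ → Bool)) // IsClosed K} //
    ∀ A : Set (ℕ → Bool), #A < 𝔠 → ∃ x ∈ p.2.1, ∀ i, x i ∉ A}
  have hF : #F ≤ #I := by
    rw [hI]
    calc #F ≤ #(Σ k : ℕ, {K : Set (Fin k → (ℕ → Bool)) // IsClosed K}) :=
          mk_subtype_le _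
      _ = Cardinal.sum (fun k : ℕ => #{K : Set (Fin k → (ℕ → Bool)) // IsClosed K}) :=
          mk_sigma _
      _ ≤ Cardinal.sum (fun _ : ℕ => 𝔠) := Cardinal.sum_le_sum _ _ (fun k => card_closed_le _)
      _ = 𝔠 := by simp
  have hne : Nonempty F :=
    ⟨⟨⟨0, ⟨univ, isClosed_univ⟩⟩, fun A _ => ⟨fun i => i.elim0, mem_univ _, fun i => i.elim0⟩⟩⟩
  obtain ⟨emb⟩ := (Cardinal.le_def _ _).1 hF
  let E : I → F := Function.invFun emb
  have hE : Function.Surjective E := Function.invFun_surjective emb.injective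
  have hlt : ∀ ξ : I, #(Iio ξ) < 𝔠 := fun ξ => by
    simpa using Cardinal.mk_Iio_toType_ord_lt ξ
  -- the recursion
  let P : (ξ : I) → ((η : I) → η < ξ → ((ℕ → Bool) × Finset (ℕ → Bool))) →
      ((ℕ → Bool) × Finset (ℕ → Bool)) → Prop := fun ξ f b =>
    (∃ z ∈ (E ξ).1.2.1, (∀ i, z i ∈ b.2) ∧ ∀ i, ∀ η (h : η < ξ), z i ≠ (f η h).1) ∧
    (∀ η (h : η < ξ), b.1 ≠ (f η h).1) ∧ (∀ η (h : η < ξ), b.1 ∉ (f η h).2) ∧ b.1 ∉ b.2
  have hP : ∀ ξ f, ∃ b, P ξ f b := by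
    intro ξ f
    let A₁ : Set (ℕ → Bool) := range (fun η : Iio ξ => (f η.1 η.2).1)
    have hA₁ : #A₁ < 𝔠 := lt_of_le_of_lt mk_range_le (hlt ξ)
    obtain ⟨z, hzK, hz⟩ := (E ξ).2 A₁ hA₁
    let Z : Finset (ℕ → Bool) := Finset.univ.image z
    let A₂ : Set (ℕ → Bool) := ⋃ η : Iio ξ, ((f η.1 η.2).2 : Set (ℕ → Bool))
    have hA₂ : #A₂ < 𝔠 := by
      calc #A₂ ≤ Cardinal.sum (fun η : Iio ξ => #((f η.1 η.2).2 : Set (ℕ → Bool))) :=
            mk_iUnion_le_sum_mk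
        _ ≤ Cardinal.sum (fun _ : Iio ξ => ℵ₀) := by
            apply Cardinal.sum_le_sum
            intro η
            exact (Finset.finite_toSet _).lt_aleph0.le
        _ = #(Iio ξ) * ℵ₀ := by simp
        _ < 𝔠 := Cardinal.mul_lt_of_lt aleph0_le_continuum (hlt ξ) aleph0_lt_continuum
    have hZ : #(Z : Set (ℕ → Bool)) < 𝔠 :=
      lt_of_lt_of_le (Finset.finite_toSet Z).lt_aleph0 aleph0_le_continuum
    have hU : #((A₁ ∪ A₂ ∪ (Z : Set (ℕ → Bool)) : Set (ℕ → Bool))) < 𝔠 := by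
      refine lt_of_le_of_lt (mk_union_le _ _) ?_
      refine Cardinal.add_lt_of_lt aleph0_le_continuum ?_ hZ
      refine lt_of_le_of_lt (mk_union_le _ _) ?_
      exact Cardinal.add_lt_of_lt aleph0_le_continuum hA₁ hA₂
    obtain ⟨b, hb⟩ : ∃ b, b ∉ A₁ ∪ A₂ ∪ (Z : Set (ℕ → Bool)) := by
      by_contra hcon
      push Not at hcon
      have : (A₁ ∪ A₂ ∪ (Z : Set (ℕ → Bool)) : Set (ℕ → Bool)) = Set.univ :=
        eq_univ_of_forall hcon
      rw [this, mk_univ, hpi] at hU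
      exact lt_irrefl _ hU
    simp only [mem_union, not_or] at hb
    obtain ⟨⟨hb1, hb2⟩, hb3⟩ := hb
    refine ⟨(b, Z), ⟨z, hzK, fun i => Finset.mem_image_of_mem _ (Finset.mem_univ i), ?_⟩,
      ?_, ?_, ?_⟩
    · intro i η h hcon
      exact hz i ⟨⟨η, h⟩, hcon.symm⟩
    · intro η h hcon
      exact hb1 ⟨⟨η, h⟩, hcon.symm⟩
    · intro η h hcon
      exact hb2 (mem_iUnion.2 ⟨⟨η, h⟩, hcon⟩)
    · exact hb3
  obtain ⟨G, hG⟩ := exists_rec P hP
  have hinj : Function.Injective (fun ξ => (G ξ).1) := by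
    intro ξ η h
    rcases lt_trichotomy ξ η with hlt' | heq | hgt
    · exact absurd h.symm ((hG η).2.1 ξ hlt')
    · exact heq
    · exact absurd h ((hG ξ).2.1 η hgt)
  refine ⟨range (fun ξ => (G ξ).1), ?_, ?_⟩
  · rw [mk_range_eq _ hinj, hI]
  · intro k K hK hcov
    rcases dichotomy k K hK with h | h
    · exact h
    · exfalso
      obtain ⟨ξ, hξ⟩ := hE ⟨⟨k, ⟨K, hK⟩⟩, h⟩
      have hGξ := hG ξ
      simp only [P] at hGξ
      rw [hξ] at hGξ
      obtain ⟨⟨z, hzK, hzZ, hzlt⟩, -, -, hbZ⟩ := hGξ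
      obtain ⟨i, η, hη⟩ := hcov z hzK
      simp only at hη
      rcases lt_trichotomy η ξ with hlt' | heq | hgt
      · exact hzlt i η hlt' hη.symm
      · subst heq
        exact hbZ (hη ▸ hzZ i)
      · exact (hG η).2.2.1 ξ hgt (hη ▸ hzZ i)

end Pool.Agent.TH566.CL
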