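import Mathlib

/-!
CL-3 (project MP_ca288e_gt): a strongly unbounded function `e : [𝔠⁺]² → ω`.
-/

set_option autoImplicit false
open Cardinal Set
namespace Pool.Agent.TH566.CL

namespace Walk

/-- no family of strictly monotone maps of the initial segments of a well-order of size `> 𝔠`
into a well-founded order of size at most `𝔠` -/
lemma no_family (κ : Type) [LinearOrder κ] [WellFoundedLT κ]
    (hk : #κ = Order.succ 𝔠) (hI : ∀ a : κ, #(Iio a) ≤ 𝔠)
    (Q : Type) [Preorder Q] [WellFoundedLT Q] (hQ : #Q ≤ 𝔠)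
    (g : κ → κ → Q) (hg : ∀ j i i' : κ, i < i' → i' < j → g j i < g j i') : False := by
  classical
  -- no maximum
  have hmax : ∀ x : κ, ∃ j, x < j := by
    intro x
    by_contra hcon
    push Not at hcon
    have h1 : (Set.univ : Set κ) ⊆ insert x (Iio x) := by
      intro y _
      rcases lt_or_eq_of_le (hcon y) with h | h
      · exact Or.inr h
      · exact Or.inl h
    have h2 : #κ ≤ #(insert x (Iio x) : Set κ) := by
      rw [← Cardinal.mk_univ]
      exact Cardinal.mk_le_mk_of_subset h1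
    have h3 : #(insert x (Iio x) : Set κ) ≤ #(Iio x) + 1 := Cardinal.mk_insert_le
    have h4 : #κ ≤ 𝔠 := by
      refine h2.trans (h3.trans ?_)
      calc #(Iio x) + 1 ≤ 𝔠 + 1 := add_le_add (hI x) le_rfl
        _ ≤ 𝔠 + 𝔠 := add_le_add le_rfl (Cardinal.one_le_aleph0.trans Cardinal.aleph0_le_continuum)
        _ = 𝔠 := Cardinal.add_eq_self Cardinal.aleph0_le_continuum
    rw [hk] at h4
    exact absurd h4 (not_le.2 (Order.lt_succ 𝔠))
  have hrank : ∀ j x : κ, x < j →
      IsWellFounded.rank (α := κ) (· < ·) x ≤ IsWellFounded.rank (α := Q) (· < ·) (g j x) := by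
    intro j x
    induction x using WellFoundedLT.induction with
    | ind x ih =>
      intro hx
      rw [IsWellFounded.rank_eq]
      apply Ordinal.iSup_le
      rintro ⟨y, hy⟩
      rw [Order.succ_le_iff]
      exact (ih y hy (lt_trans hy hx)).trans_lt (IsWellFounded.rank_lt_of_rel (hg j y x hy hx))
  have hq : ∀ x : κ, ∃ q : Q,
      IsWellFounded.rank (α := Q) (· < ·) q = IsWellFounded.rank (α := κ) (· < ·) x := by
    intro x
    obtain ⟨j, hj⟩ := hmax x
    exact IsWellFounded.mem_range_rank_of_le (hrank j x hj)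
  choose q hq using hq
  have hinj : Function.Injective q := by
    intro x y hxy
    have : IsWellFounded.rank (α := κ) (· < ·) x = IsWellFounded.rank (α := κ) (· < ·) y := by
      rw [← hq x, ← hq y, hxy]
    exact (WellFoundedLT.rank_strictMono (α := κ)).injective this
  have h5 : #κ ≤ #Q := Cardinal.mk_le_of_injective hinj
  rw [hk] at h5
  exact absurd (h5.trans hQ) (not_le.2 (Order.lt_succ 𝔠))

/-- least element of `insert ⊤ S` -/
lemma exists_mn {Λ : Type} [LinearOrder Λ] [WellFoundedLT Λ] (S : Set (WithTop Λ)) :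
    ∃ q : WithTop Λ, (q = ⊤ ∨ q ∈ S) ∧ ∀ x ∈ S, q ≤ x := by
  obtain ⟨q, hq, hmin⟩ := WellFounded.has_min (wellFounded_lt (α := WithTop Λ)) (insert ⊤ S)
    ⟨⊤, Set.mem_insert _ _⟩
  exact ⟨q, hq, fun x hx => not_lt.1 (hmin x (Set.mem_insert_of_mem _ hx))⟩

section
variable {κ : Type} [LinearOrder κ]

lemma exists_step {L : Type} [LinearOrder L] [WellFoundedLT L] (f : κ → κ → L) (α β : κ) :
    ∃ γ, α < β → (α ≤ γ ∧ γ < β ∧ ∀ δ, α ≤ δ → δ < β → f β γ ≤ f β δ) := by
  by_cases h : α < β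
  · obtain ⟨q, ⟨γ, ⟨h1, h2⟩, rfl⟩, hmin⟩ := WellFounded.has_min (wellFounded_lt (α := L))
      ((fun γ => f β γ) '' {γ | α ≤ γ ∧ γ < β}) ⟨f β α, α, ⟨le_rfl, h⟩, rfl⟩
    exact ⟨γ, fun _ => ⟨h1, h2, fun δ h3 h4 => not_lt.1 (hmin _ ⟨δ, ⟨h3, h4⟩, rfl⟩)⟩⟩
  · exact ⟨α, fun h' => absurd h' h⟩

/-- the walk length -/
lemma exists_ee [WellFoundedLT κ] (step : κ → κ → κ) (hstep : ∀ α β, α < β → step α β < β) :
    ∃ ee : κ → κ → ℕ, ∀ α β, ee α β = if α < β then 1 + ee α (step α β) else 0 := by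
  classical
  let F : (β : κ) → ((γ : κ) → γ < β → κ → ℕ) → κ → ℕ := fun β rec α =>
    if h : α < β then 1 + rec (step α β) (hstep α β h) α else 0
  refine ⟨fun α β => WellFounded.fix (wellFounded_lt (α := κ)) F β α, fun α β => ?_⟩
  change WellFounded.fix (wellFounded_lt (α := κ)) F β α = _
  rw [WellFounded.fix_eq]
  simp only [F]
  split_ifs <;> rfl

/-- the codes -/
lemma exists_codes (L : Type) [LinearOrder L] [WellFoundedLT L] (hL : #L = 𝔠)
    (f : κ → κ → L) (hf : ∀ β α α', α < β → α' < β → f β α = f β α' → α = α')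
    (step : κ → κ → κ) (hstep : ∀ α β, α < β →
      (α ≤ step α β ∧ step α β < β ∧ ∀ δ, α ≤ δ → δ < β → f β (step α β) ≤ f β δ))
    (ee : κ → κ → ℕ) (hee : ∀ α β, ee α β = if α < β then 1 + ee α (step α β) else 0) (n : ℕ) :
    ∃ (Λ : Type) (_ : LinearOrder Λ) (_ : WellFoundedLT Λ), #Λ ≤ 𝔠 ∧
      ∃ φ : κ → κ → Λ, ∀ β α α', α < α' → α' < β → ee α β ≤ n → ee α' β ≤ n →
        φ β α < φ β α' := by
  classical
  induction n with
  | zero =>
    refine ⟨Unit, inferInstance, inferInstance, ?_, fun _ _ => (), ?_⟩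
    · rw [Cardinal.mk_unit]
      exact Cardinal.one_le_aleph0.trans Cardinal.aleph0_le_continuum
    · intro β α α' h1 h2 h3 h4
      rw [hee, if_pos h2] at h4
      omega
  | succ n ih =>
    obtain ⟨Λ, i1, i2, hΛ, φ, hφ⟩ := ih
    refine ⟨L ×ₗ WithTop Λ, inferInstance, inferInstance, ?_,
      fun β α => toLex (f β (step α β),
        if α = step α β then (⊤ : WithTop Λ) else ((φ (step α β) α : Λ) : WithTop Λ)), ?_⟩
    · have h1 : #(WithTop Λ) ≤ 𝔠 := by
        have : #(WithTop Λ) = #Λ + 1 := Cardinal.mk_option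
        rw [this]
        calc #Λ + 1 ≤ 𝔠 + 𝔠 :=
              add_le_add hΛ (Cardinal.one_le_aleph0.trans Cardinal.aleph0_le_continuum)
          _ = 𝔠 := Cardinal.add_eq_self Cardinal.aleph0_le_continuum
      have h2 : #(L ×ₗ WithTop Λ) = #(L × WithTop Λ) := Cardinal.mk_congr ofLex
      rw [h2, Cardinal.mk_prod, Cardinal.lift_id, Cardinal.lift_id, hL]
      calc 𝔠 * #(WithTop Λ) ≤ 𝔠 * 𝔠 := mul_le_mul_right h1 _
        _ = 𝔠 := Cardinal.mul_eq_self Cardinal.aleph0_le_continuum
    · intro β α α' h1 h2 h3 h4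
      have hαβ : α < β := lt_trans h1 h2
      obtain ⟨s1, s2, s3⟩ := hstep α β hαβ
      obtain ⟨t1, t2, t3⟩ := hstep α' β h2
      have hle : f β (step α β) ≤ f β (step α' β) := s3 _ (le_trans h1.le t1) t2
      rw [Prod.Lex.toLex_lt_toLex]
      simp only
      rcases lt_or_eq_of_le hle with hlt | heq
      · exact Or.inl hlt
      · right
        refine ⟨heq, ?_⟩
        have hγ : step α β = step α' β := hf β _ _ s2 t2 heq
        have hne : α ≠ step α β := by
          intro h
          rw [hγ] at h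
          exact absurd (lt_of_lt_of_le h1 t1) (by rw [← h]; exact lt_irrefl _)
        rw [if_neg hne]
        by_cases h5 : α' = step α' β
        · rw [if_pos h5]
          exact WithTop.coe_lt_top _
        · rw [if_neg h5, hγ, WithTop.coe_lt_coe]
          have h6 : α' < step α' β := lt_of_le_of_ne t1 h5
          apply hφ _ _ _ h1 h6
          · rw [hee, if_pos hαβ, hγ] at h3
            omega
          · rw [hee, if_pos h2] at h4
            omega

end

end Walk

open Walk in
theorem exists_e (κ : Type) [LinearOrder κ] [WellFoundedLT κ]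
    (hk : #κ = Order.succ 𝔠) (hI : ∀ a : κ, #(Iio a) ≤ 𝔠) :
    ∃ e : κ → κ → ℕ, (∀ a b, e a b = e b a) ∧ (∀ a, e a a = 0) ∧
      ∀ (m n : ℕ) (a : κ → Finset κ), (∀ i, (a i).card ≤ m) →
        (∀ i j, i < j → ∀ x ∈ a i, ∀ y ∈ a j, x < y) →
        ∃ i j, i < j ∧ ∀ x ∈ a i, ∀ y ∈ a j, n < e x y := by
  classical
  let L : Type := (𝔠 : Cardinal.{0}).ord.ToType
  have hL : #L = 𝔠 := Cardinal.mk_ord_toType 𝔠
  have : Nonempty L := by
    rw [← Cardinal.mk_ne_zero_iff, hL]
    exact Cardinal.continuum_ne_zero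
  -- injections
  have hf : ∃ f : κ → κ → L, ∀ β α α', α < β → α' < β → f β α = f β α' → α = α' := by
    have h1 : ∀ β : κ, ∃ g : κ → L, ∀ α α', α < β → α' < β → g α = g α' → α = α' := by
      intro β
      have h2 : #(Iio β) ≤ #L := by rw [hL]; exact hI β
      obtain ⟨g⟩ := h2
      refine ⟨fun α => if h : α < β then g ⟨α, h⟩ else Classical.arbitrary L, ?_⟩
      intro α α' h3 h4 h5
      simp only [dif_pos h3, dif_pos h4] at h5
      have := g.injective h5
      exact congrArg Subtype.val this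
    choose g hg using h1
    exact ⟨g, hg⟩
  obtain ⟨f, hf⟩ := hf
  choose step hstep using exists_step f
  obtain ⟨ee, hee⟩ := exists_ee step (fun α β h => (hstep α β h).2.1)
  have hee0 : ∀ α β, ¬ α < β → ee α β = 0 := by
    intro α β h
    rw [hee, if_neg h]
  refine ⟨fun α β => ee α β + ee β α, fun a b => add_comm _ _, fun a => ?_, ?_⟩
  · simp only
    rw [hee0 a a (lt_irrefl a)]
  · intro m n a hm hsucc
    by_contra hcon
    push Not at hcon
    obtain ⟨Λ, i1, i2, hΛ, φ, hφ⟩ := exists_codes L hL f hf step hstep ee hee n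
    -- choice of witnesses
    have hxy : ∀ i j : κ, ∃ x y : κ, i < j → (x ∈ a i ∧ y ∈ a j ∧ x < y ∧ ee x y ≤ n) := by
      intro i j
      by_cases h : i < j
      · obtain ⟨x, hx, y, hy, h1⟩ := hcon i j h
        refine ⟨x, y, fun _ => ⟨hx, hy, hsucc i j h x hx y hy, ?_⟩⟩
        omega
      · exact ⟨i, i, fun h' => absurd h' h⟩
    choose x y hxy using hxy
    -- indices
    have hidx : ∀ j : κ, ∃ c : κ → Fin (m + 1), ∀ u ∈ a j, ∀ v ∈ a j, c u = c v → u = v := by
      intro j
      have h1 : Fintype.card {u // u ∈ a j} ≤ Fintype.card (Fin (m + 1)) := by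
        rw [Fintype.card_coe, Fintype.card_fin]
        have := hm j
        omega
      obtain ⟨c⟩ := Function.Embedding.nonempty_of_card_le h1
      refine ⟨fun u => if h : u ∈ a j then c ⟨u, h⟩ else 0, ?_⟩
      intro u hu v hv h2
      simp only [dif_pos hu, dif_pos hv] at h2
      have := c.injective h2
      exact congrArg Subtype.val this
    choose c hc using hidx
    choose mn hmn using (exists_mn (Λ := Λ))
    let S : κ → κ → Fin (m + 1) → Set (WithTop Λ) := fun j i r =>
      {q | ∃ i', i ≤ i' ∧ i' < j ∧ c j (y i' j) = r ∧ q = ((φ (y i' j) (x i' j) : Λ) : WithTop Λ)}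
    let g : κ → κ → (Fin (m + 1) → WithTop Λ) := fun j i r => mn (S j i r)
    have hcode : ∀ i i' j : κ, i < i' → i' < j → c j (y i j) = c j (y i' j) →
        φ (y i j) (x i j) < φ (y i' j) (x i' j) := by
      intro i i' j h1 h2 h3
      obtain ⟨a1, a2, a3, a4⟩ := hxy i j (lt_trans h1 h2)
      obtain ⟨b1, b2, b3, b4⟩ := hxy i' j h2
      have h4 : y i j = y i' j := hc j _ a2 _ b2 h3
      rw [h4] at a3 a4 ⊢
      exact hφ _ _ _ (hsucc i i' h1 _ a1 _ b1) b3 a4 b4
    have hg : ∀ j i i' : κ, i < i' → i' < j → g j i < g j i' := by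
      intro j i i' h1 h2
      rw [Pi.lt_def]
      constructor
      · intro r
        rcases (hmn (S j i' r)).1 with h | ⟨i'', h3, h4, h5, h6⟩
        · simp only [g]
          rw [h]
          exact le_top
        · apply (hmn (S j i r)).2
          exact ⟨i'', le_trans h1.le h3, h4, h5, h6⟩
      · refine ⟨c j (y i j), ?_⟩
        have h7 : g j i (c j (y i j)) ≤ ((φ (y i j) (x i j) : Λ) : WithTop Λ) := by
          apply (hmn (S j i (c j (y i j)))).2
          exact ⟨i, le_rfl, lt_trans h1 h2, rfl, rfl⟩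
        refine lt_of_le_of_lt h7 ?_
        rcases (hmn (S j i' (c j (y i j)))).1 with h | ⟨i'', h3, h4, h5, h6⟩
        · simp only [g]
          rw [h]
          exact WithTop.coe_lt_top _
        · simp only [g]
          rw [h6, WithTop.coe_lt_coe]
          exact hcode i i'' j (lt_of_lt_of_le h1 h3) h4 h5.symm
    have hQ : #(Fin (m + 1) → WithTop Λ) ≤ 𝔠 := by
      have h1 : #(WithTop Λ) ≤ 𝔠 := by
        have : #(WithTop Λ) = #Λ + 1 := Cardinal.mk_option
        rw [this]
        calc #Λ + 1 ≤ 𝔠 + 𝔠 :=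
              add_le_add hΛ (Cardinal.one_le_aleph0.trans Cardinal.aleph0_le_continuum)
          _ = 𝔠 := Cardinal.add_eq_self Cardinal.aleph0_le_continuum
      have h2 : #(Fin (m + 1) → WithTop Λ) = #(WithTop Λ) ^ (m + 1 : ℕ) := by
        rw [← Cardinal.power_def, Cardinal.mk_fin]
        exact Cardinal.power_natCast _ _
      rw [h2]
      calc #(WithTop Λ) ^ (m + 1 : ℕ) ≤ 𝔠 ^ (m + 1 : ℕ) := by
            gcongr
        _ ≤ 𝔠 := Cardinal.power_nat_le Cardinal.aleph0_le_continuum
    exact no_family κ hk hI (Fin (m + 1) → WithTop Λ) hQ g hg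

end Pool.Agent.TH566.CL
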