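import Pool.Agent.TH566.CL.Topo
import Pool.Agent.TH566.CL.Dich
import Pool.Agent.TH566.CL.Good
import Pool.Agent.TH566.CL.Walk

set_option autoImplicit false

open Cardinal Set Topology

namespace Pool.Agent.TH566.CL

/-- the index type -/
abbrev KK : Type := (Order.succ 𝔠).ord.ToType

theorem exists_data : Nonempty (Data KK) := by
  classical
  have hk : #KK = Order.succ 𝔠 := by
    rw [Cardinal.mk_toType, Cardinal.card_ord]
  have hI : ∀ a : KK, #(Iio a) ≤ 𝔠 := fun a =>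
    Order.lt_succ_iff.1 (Cardinal.mk_Iio_toType_ord_lt a)
  obtain ⟨e, he1, he2, he3⟩ := exists_e KK hk hI
  obtain ⟨B, hB, hG⟩ := exists_good_of dichotomy
  have hB0 : Nonempty B := by
    rw [← Cardinal.mk_ne_zero_iff, hB]
    exact Cardinal.continuum_ne_zero
  obtain ⟨b0⟩ := hB0
  have hinj : ∀ g : KK, ∃ f : KK → (ℕ → Bool), InjOn f (Iio g) ∧ ∀ c, f c ∈ B := by
    intro g
    have h1 : #(Iio g) ≤ #B := by rw [hB]; exact hI g
    obtain ⟨φ⟩ := h1
    refine ⟨fun c => if h : c < g then (φ ⟨c, h⟩).1 else b0.1, ?_, ?_⟩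
    · intro c hc d hd hcd
      simp only [mem_Iio] at hc hd
      simp only [dif_pos hc, dif_pos hd] at hcd
      exact congrArg Subtype.val (φ.injective (Subtype.ext hcd))
    · intro c
      by_cases h : c < g
      · simp only [dif_pos h]; exact (φ ⟨c, h⟩).2
      · simp only [dif_neg h]; exact b0.2
  choose f hf1 hf2 using hinj
  exact ⟨⟨e, f, B, hk, hI, he1, he2, he3, hf1, hf2, hG⟩⟩

/-- a regular first countable cellular-Lindelof space with a diagonal of rank 2, of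
cardinality greater than the continuum -/
theorem main : ∃ (X : Type) (_ : TopologicalSpace X), T3Space X ∧ FirstCountableTopology X ∧
    (∀ 𝒰 : Set (Set X), (∀ U ∈ 𝒰, IsOpen U ∧ U.Nonempty) → 𝒰.PairwiseDisjoint id →
        ∃ L : Set X, IsLindelof L ∧ ∀ U ∈ 𝒰, (L ∩ U).Nonempty) ∧
    (∃ 𝒰 : ℕ → Set (Set X),
        (∀ n, ∀ V ∈ 𝒰 n, IsOpen V) ∧ (∀ n, ⋃₀ 𝒰 n = Set.univ) ∧
        ∀ x y : X, x ≠ y → ∃ n, ¬ ∃ V ∈ 𝒰 n, ∃ W ∈ 𝒰 n, x ∈ V ∧ (V ∩ W).Nonempty ∧ y ∈ W) ∧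
    ¬ #X ≤ 𝔠 := by
  obtain ⟨D⟩ := exists_data
  exact ⟨D.X, inferInstance, inferInstance, inferInstance, D.cellular, D.rank_two, D.large⟩

end Pool.Agent.TH566.CL
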