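import Pool.Agent.TH566.CL.Tm

set_option autoImplicit false

open Cardinal Set

namespace Pool.Agent.TH566.CL

open Tm

variable {κ : Type} [LinearOrder κ]

/-- the coherence condition -/
def Cond (e : κ → κ → ℕ) (u : Tm κ) : Prop :=
  ∀ k m, k ≤ m → ∀ x y, In k x u → In m y u →
    In k x y ∨ In m y x ∨ m < e (lab x) (lab y)

/-- legitimate terms -/
def Legit (e : κ → κ → ℕ) : Tm κ → Prop
  | leaf _ => True
  | node a n l r => Legit e l ∧ Legit e r ∧ lab l < a ∧ lab r < a ∧ Cond e (node a n l r)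

variable {e : κ → κ → ℕ}

theorem Legit.cond {t : Tm κ} (h : Legit e t) : Cond e t := by
  cases t with
  | leaf a =>
    intro k m _ x y hx hy
    rw [in_leaf] at hx hy
    left
    rw [hx, hy]
    exact In.refl _ _
  | node a n l r => exact h.2.2.2.2

theorem Legit.sub {t x : Tm κ} (h : Legit e t) {p : List Bool} (hp : sub? t p = some x) :
    Legit e x := by
  induction p generalizing t with
  | nil => simp at hp; subst hp; exact h
  | cons c p ih =>
    cases t with
    | leaf a => simp at hp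
    | node a n l r =>
      cases c
      · exact ih h.1 hp
      · exact ih h.2.1 hp

theorem Legit.of_in {t x : Tm κ} (h : Legit e t) {k : ℕ} (hx : In k x t) : Legit e x := by
  obtain ⟨p, -, hp⟩ := hx
  exact h.sub hp

theorem Legit.lab_le {t x : Tm κ} (h : Legit e t) {p : List Bool} (hp : sub? t p = some x) :
    lab x ≤ lab t := by
  induction p generalizing t with
  | nil => simp at hp; subst hp; exact le_rfl
  | cons c p ih =>
    cases t with
    | leaf a => simp at hp
    | node a n l r =>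
      cases c
      · exact (ih h.1 hp).trans h.2.2.1.le
      · exact (ih h.2.1 hp).trans h.2.2.2.1.le

theorem Legit.lab_lt {t x : Tm κ} (h : Legit e t) {p : List Bool} (hp : sub? t p = some x)
    (hne : p ≠ []) : lab x < lab t := by
  cases p with
  | nil => exact absurd rfl hne
  | cons c p =>
    cases t with
    | leaf a => simp at hp
    | node a n l r =>
      cases c
      · exact (h.1.lab_le hp).trans_lt h.2.2.1
      · exact (h.2.1.lab_le hp).trans_lt h.2.2.2.1

theorem Legit.labs_le {t : Tm κ} (h : Legit e t) : ∀ c ∈ labs t, c ≤ lab t := by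
  classical
  induction t with
  | leaf a => intro c hc; simp [labs] at hc; exact hc.le
  | node a n l r ihl ihr =>
    intro c hc
    simp only [labs, Finset.mem_insert, Finset.mem_union] at hc
    rcases hc with rfl | hc | hc
    · exact le_rfl
    · exact (ihl h.1 c hc).trans h.2.2.1.le
    · exact (ihr h.2.1 c hc).trans h.2.2.2.1.le

theorem in_node_cases {k : ℕ} {x : Tm κ} {a : κ} {n : ℕ} {l r : Tm κ}
    (h : In k x (node a n l r)) (hne : x ≠ node a n l r) : k ≤ n ∧ (In k x l ∨ In k x r) := by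
  rw [in_node] at h
  rcases h with h | h
  · exact absurd h hne
  · exact h

theorem legit_dup {t : Tm κ} (h : Legit e t) {a : κ} (ha : lab t < a) (n : ℕ) :
    Legit e (node a n t t) := by
  refine ⟨h, h, ha, ha, ?_⟩
  intro k m hkm x y hx hy
  by_cases h1 : x = node a n t t
  · subst h1; exact Or.inr (Or.inl hy)
  by_cases h2 : y = node a n t t
  · subst h2; exact Or.inl hx
  have h3 := (in_node_cases hx h1).2
  have h4 := (in_node_cases hy h2).2
  rw [or_self] at h3 h4
  exact h.cond k m hkm x y h3 h4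

section card

variable [WellFoundedLT κ]

/-- sets of size at most continuum are bounded -/
theorem bdd (hk : #κ = Order.succ 𝔠) (hI : ∀ a : κ, #(Iio a) ≤ 𝔠) (S : Set κ) (hS : #S ≤ 𝔠) :
    ∃ b, ∀ s ∈ S, s < b := by
  by_contra hcon
  push Not at hcon
  have h1 : (univ : Set κ) = ⋃ s : S, Iic (s : κ) := by
    ext b
    simp only [mem_univ, mem_iUnion, mem_Iic, true_iff]
    obtain ⟨s, hs, h⟩ := hcon b
    exact ⟨⟨s, hs⟩, h⟩
  have h2 : ∀ a : κ, #(Iic a) ≤ 𝔠 := by
    intro a
    rw [← Iio_insert]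
    refine (Cardinal.mk_insert_le).trans ?_
    refine (add_le_add (hI a) (Cardinal.one_le_aleph0.trans Cardinal.aleph0_le_continuum)).trans ?_
    rw [Cardinal.continuum_add_self]
  have h3 : #κ ≤ 𝔠 := by
    rw [← Cardinal.mk_univ, h1]
    refine (Cardinal.mk_iUnion_le _).trans ?_
    refine (mul_le_mul' hS (ciSup_le' (fun s : S => h2 (s : κ)))).trans ?_
    rw [Cardinal.continuum_mul_self]
  rw [hk] at h3
  exact absurd h3 (not_le.2 (Order.lt_succ _))

/-- a sparse sequence -/
theorem exists_seq (hk : #κ = Order.succ 𝔠) (hI : ∀ a : κ, #(Iio a) ≤ 𝔠) (T : κ → κ) :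
    ∃ s : κ → κ, ∀ i j, i < j → T (s i) < s j := by
  classical
  have hb : ∀ (j : κ) (F : ∀ i, i < j → κ), ∃ b, ∀ i (h : i < j), T (F i h) < b := by
    intro j F
    obtain ⟨b, hb⟩ := bdd hk hI (range fun i : Iio j => T (F i.1 i.2))
      (Cardinal.mk_range_le.trans (hI j))
    exact ⟨b, fun i h => hb _ ⟨⟨i, h⟩, rfl⟩⟩
  choose G hG using hb
  have hwf : WellFounded ((· < ·) : κ → κ → Prop) := wellFounded_lt
  refine ⟨hwf.fix (fun j F => G j F), ?_⟩
  intro i j hij
  rw [hwf.fix_eq (fun j F => G j F) j]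
  exact hG j (fun i _ => hwf.fix (fun j F => G j F) i) i hij

open Classical in
/-- truncation of labels -/
noncomputable def tr (δ : κ) (a : κ) : Option (Iio δ) := if h : a < δ then some ⟨a, h⟩ else none

theorem tr_inj {δ c : κ} (hc : c < δ) (d : κ) (h : tr δ c = tr δ d) : c = d := by
  unfold tr at h
  rw [dif_pos hc] at h
  split_ifs at h with h1
  exact congrArg Subtype.val (Option.some.inj h)

theorem exists_pattern (hk : #κ = Order.succ 𝔠) (hI : ∀ a : κ, #(Iio a) ≤ 𝔠)
    (t : κ → Tm κ) (K : κ → ℕ) :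
    ∃ (δ : κ) (P : Tm (Option (Iio δ)) × ℕ), ∀ β, ∃ ξ, β < ξ ∧
      (Tm.map (tr δ) (t ξ), K ξ) = P ∧ ∀ c ∈ labs (t ξ), δ ≤ c → β < c := by
  classical
  by_contra hcon
  push Not at hcon
  choose F hF using hcon
  have hne : Nonempty κ := by
    rw [← Cardinal.mk_ne_zero_iff, hk]
    exact (Cardinal.succ_ne_zero _)
  have hcard : ∀ δ : κ, #(Tm (Option (Iio δ)) × ℕ) ≤ 𝔠 := by
    intro δ
    rw [Cardinal.mk_prod, Cardinal.lift_id, Cardinal.lift_id, Cardinal.mk_nat]
    have h1 : #(Tm (Option (Iio δ))) ≤ 𝔠 := by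
      refine Tm.mk_le 𝔠 Cardinal.aleph0_le_continuum ?_
      rw [Cardinal.mk_option]
      refine (add_le_add (hI δ)
        (Cardinal.one_le_aleph0.trans Cardinal.aleph0_le_continuum)).trans ?_
      rw [Cardinal.continuum_add_self]
    refine (mul_le_mul' h1 Cardinal.aleph0_le_continuum).trans ?_
    rw [Cardinal.continuum_mul_self]
  have hB : ∀ δ : κ, ∃ b, δ < b ∧ ∀ P, F δ P < b := by
    intro δ
    obtain ⟨b, hb⟩ := bdd hk hI (insert δ (range (F δ))) (by
      refine (Cardinal.mk_insert_le).trans ?_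
      refine (add_le_add (Cardinal.mk_range_le.trans (hcard δ))
        (Cardinal.one_le_aleph0.trans Cardinal.aleph0_le_continuum)).trans ?_
      rw [Cardinal.continuum_add_self])
    exact ⟨b, hb _ (mem_insert _ _), fun P => hb _ (mem_insert_of_mem _ ⟨P, rfl⟩)⟩
  choose B hB1 hB2 using hB
  have hB3 : ∀ δ ξ, B δ < ξ → ∃ c ∈ labs (t ξ), δ ≤ c ∧ c < B δ := by
    intro δ ξ h
    obtain ⟨c, hc, h1, h2⟩ := hF δ (Tm.map (tr δ) (t ξ), K ξ) ξ ((hB2 δ _).trans h) rfl
    exact ⟨c, hc, h1, h2.trans_lt (hB2 δ _)⟩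
  obtain ⟨z⟩ := hne
  let D : ℕ → κ := fun n => Nat.rec z (fun _ d => B d) n
  obtain ⟨ξ, hξ⟩ := bdd hk hI (range D) (by
    refine (Cardinal.mk_range_le).trans ?_
    rw [Cardinal.mk_nat]
    exact Cardinal.aleph0_le_continuum)
  have h1 : ∀ n, ∃ c ∈ labs (t ξ), D n ≤ c ∧ c < D (n + 1) :=
    fun n => hB3 (D n) ξ (hξ (D (n + 1)) ⟨n + 1, rfl⟩)
  choose c hc1 hc2 hc3 using h1
  have h2 : StrictMono c := strictMono_nat_of_lt_succ fun n => (hc3 n).trans_le (hc2 (n + 1))
  have h3 : (range c).Infinite := Set.infinite_range_of_injective h2.injective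
  exact h3 ((labs (t ξ)).finite_toSet.subset (by rintro _ ⟨n, rfl⟩; exact hc1 n))

theorem amalgam (hk : #κ = Order.succ 𝔠) (hI : ∀ a : κ, #(Iio a) ≤ 𝔠)
    (hes : ∀ a b, e a b = e b a)
    (he : ∀ (m n : ℕ) (a : κ → Finset κ), (∀ i, (a i).card ≤ m) →
        (∀ i j, i < j → ∀ x ∈ a i, ∀ y ∈ a j, x < y) →
        ∃ i j, i < j ∧ ∀ x ∈ a i, ∀ y ∈ a j, n < e x y)
    (t : κ → Tm κ) (ht : ∀ ξ, Legit e (t ξ)) (K : κ → ℕ) :
    ∃ ξ η, ξ ≠ η ∧ ∃ u, Legit e u ∧ In (K ξ) (t ξ) u ∧ In (K η) (t η) u := by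
  classical
  obtain ⟨δ, P, hP⟩ := exists_pattern hk hI t K
  choose h hh1 hh2 hh3 using hP
  have hT : ∀ β, ∃ T, h β ≤ T ∧ ∀ c ∈ labs (t (h β)), c ≤ T := by
    intro β
    obtain ⟨b, hb⟩ := bdd hk hI (↑(insert (h β) (labs (t (h β)))) : Set κ)
      ((Cardinal.lt_aleph0_of_finite _).le.trans Cardinal.aleph0_le_continuum)
    exact ⟨b, (hb _ (by simp)).le, fun c hc => (hb _ (by simp [hc])).le⟩
  choose T hT1 hT2 using hT
  obtain ⟨s, hs⟩ := exists_seq hk hI T
  obtain ⟨i, j, hij, hlarge⟩ := he (size P.1) P.2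
    (fun i => (labs (t (h (s i)))).filter (fun c => δ ≤ c)) (by
      intro i
      refine (Finset.card_filter_le _ _).trans ((card_labs_le _).trans ?_)
      have := congrArg Prod.fst (hh2 (s i))
      simp only at this
      rw [← this, size_map]) (by
      intro i j hij x hx y hy
      simp only [Finset.mem_filter] at hx hy
      exact (hT2 (s i) x hx.1).trans_lt ((hs i j hij).trans (hh3 (s j) y hy.1 hy.2)))
  simp only [Finset.mem_filter, and_imp] at hlarge
  set s1 := t (h (s i)) with hs1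
  set s2 := t (h (s j)) with hs2
  have hm : Tm.map (tr δ) s1 = Tm.map (tr δ) s2 := by
    have h1 := congrArg Prod.fst (hh2 (s i))
    have h2 := congrArg Prod.fst (hh2 (s j))
    simp only at h1 h2
    rw [hs1, hs2, h1, h2]
  have hK1 : K (h (s i)) = P.2 := congrArg Prod.snd (hh2 (s i))
  have hK2 : K (h (s j)) = P.2 := congrArg Prod.snd (hh2 (s j))
  have L1 : Legit e s1 := ht _
  have L2 : Legit e s2 := ht _
  obtain ⟨a, ha⟩ := bdd hk hI {lab s1, lab s2}
    ((Cardinal.lt_aleph0_of_finite _).le.trans Cardinal.aleph0_le_continuum)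
  have hsmall : ∀ x : Tm κ, Legit e x → lab x < δ → ∀ c ∈ labs x, ∀ d, tr δ c = tr δ d → c = d :=
    fun x hx hlt c hc d hd => tr_inj ((hx.labs_le c hc).trans_lt hlt) d hd
  have hin12 : ∀ k x, In k x s1 → lab x < δ → In k x s2 := fun k x hx hlt =>
    in_of_map_eq hm hx (hsmall x (L1.of_in hx) hlt)
  have hin21 : ∀ k x, In k x s2 → lab x < δ → In k x s1 := fun k x hx hlt =>
    in_of_map_eq hm.symm hx (hsmall x (L2.of_in hx) hlt)
  have hlab : ∀ {k : ℕ} {x t : Tm κ}, In k x t → lab x ∈ labs t := by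
    rintro k x t ⟨p, -, hp⟩
    exact labs_subset_of_sub? hp (lab_mem_labs x)
  refine ⟨h (s i), h (s j), ?_, node a P.2 s1 s2, ?_, ?_, ?_⟩
  · exact (((hT1 (s i)).trans_lt (hs i j hij)).trans (hh1 (s j))).ne
  · refine ⟨L1, L2, ha _ (by simp), ha _ (by simp), ?_⟩
    intro k m hkm x y hx hy
    by_cases h1 : x = node a P.2 s1 s2
    · subst h1; exact Or.inr (Or.inl hy)
    by_cases h2 : y = node a P.2 s1 s2
    · subst h2; exact Or.inl hx
    obtain ⟨-, h3⟩ := in_node_cases hx h1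
    obtain ⟨hmn, h4⟩ := in_node_cases hy h2
    rcases h3 with h3 | h3 <;> rcases h4 with h4 | h4
    · exact L1.cond k m hkm x y h3 h4
    · by_cases h5 : lab x < δ
      · exact L2.cond k m hkm x y (hin12 k x h3 h5) h4
      by_cases h6 : lab y < δ
      · exact L1.cond k m hkm x y h3 (hin21 m y h4 h6)
      right; right
      exact hmn.trans_lt (hlarge _ (hlab h3) (not_lt.1 h5) _ (hlab h4) (not_lt.1 h6))
    · by_cases h5 : lab x < δ
      · exact L1.cond k m hkm x y (hin21 k x h3 h5) h4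
      by_cases h6 : lab y < δ
      · exact L2.cond k m hkm x y h3 (hin12 m y h4 h6)
      right; right
      rw [hes]
      exact hmn.trans_lt (hlarge _ (hlab h4) (not_lt.1 h6) _ (hlab h3) (not_lt.1 h5))
    · exact L2.cond k m hkm x y h3 h4
  · rw [hK1, in_node]
    exact Or.inr ⟨le_rfl, Or.inl (In.refl _ _)⟩
  · rw [hK2, in_node]
    exact Or.inr ⟨le_rfl, Or.inr (In.refl _ _)⟩

end card

end Pool.Agent.TH566.CL
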