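import Pool.Agent.TH566.CL.Space

set_option autoImplicit false

open Cardinal Set

namespace Pool.Agent.TH566.CL

open Tm

/-- the defining property of the good set -/
def Good (B : Set (ℕ → Bool)) : Prop :=
  ∀ (k : ℕ) (K : Set (Fin k → (ℕ → Bool))), IsClosed K → (∀ x ∈ K, ∃ i, x i ∈ B) →
      ∃ C : Set (ℕ → Bool), C.Countable ∧ ∀ x ∈ K, ∃ i, x i ∈ C

theorem isOpen_eqm (m : ℕ) (z : HH) : IsOpen {M : Mat | Eqm m z (z.1, M)} := by
  have h1 : {M : Mat | Eqm m z (z.1, M)} =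
      ⋂ p ∈ {p : List Bool | p.length < m}, ⋂ q ∈ {q : List Bool | q.length < m},
        ⋂ i ∈ {i : ℕ | i < m}, {M : Mat | M p q i = z.2 p q i} := by
    ext M
    simp only [mem_ofPred_eq, mem_iInter]
    constructor
    · intro h p hp q hq i hi
      exact (h.2 p q i hp hq hi).symm
    · intro h
      exact ⟨rfl, fun p q i hp hq hi => (h p hp q hq i hi).symm⟩
  rw [h1]
  refine (List.finite_length_lt Bool m).isOpen_biInter fun p _ => ?_
  refine (List.finite_length_lt Bool m).isOpen_biInter fun q _ => ?_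
  refine (Set.finite_lt_nat m).isOpen_biInter fun i _ => ?_
  have h2 : Continuous fun M : Mat => M p q i := by fun_prop
  exact (isOpen_discrete {z.2 p q i}).preimage h2

theorem lind_aux {B : Set (ℕ → Bool)} (hB : Good B) (s : Tm Unit) (N : HH → ℕ) (k : ℕ) :
    ∀ (S : Finset (List Bool)), S.card = k → ∀ K : Set Mat, IsClosed K →
      (∀ p, Reach 0 s p → p ∉ S → ∀ M ∈ K, ∀ M' ∈ K, M [] p = M' [] p) →
      ∃ C : Set Mat, C.Countable ∧ ∀ M ∈ K, ∃ M0 ∈ C,
        Eqm (N (s, M0)) (s, M0) (s, M) ∧ Exact B (s, M0) (s, M) := by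
  classical
  induction k with
  | zero =>
    intro S hS K hK hc
    have hS' : S = ∅ := Finset.card_eq_zero.1 hS
    subst hS'
    obtain ⟨T, hT1, hT2⟩ := TopologicalSpace.isOpen_iUnion_countable
      (fun M0 : K => {M : Mat | Eqm (N (s, M0.1)) (s, M0.1) (s, M)})
      (fun M0 => isOpen_eqm _ (s, M0.1))
    refine ⟨Subtype.val '' T, hT1.image _, ?_⟩
    intro M hM
    have h1 : M ∈ ⋃ M0 : K, {M : Mat | Eqm (N (s, M0.1)) (s, M0.1) (s, M)} :=
      mem_iUnion.2 ⟨⟨M, hM⟩, Eqm.refl _ _⟩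
    rw [← hT2] at h1
    simp only [mem_iUnion, mem_ofPred_eq] at h1
    obtain ⟨M0, hM0, h2⟩ := h1
    exact ⟨M0.1, ⟨M0, hM0, rfl⟩, h2, fun p hp _ => hc p hp (by simp) M hM M0.1 M0.2⟩
  | succ k ih =>
    intro S hS K hK hc
    set KZ : Set Mat := {M | M ∈ K ∧ ∀ p ∈ S, M [] p ∉ B} with hKZ
    obtain ⟨T, hT1, hT2⟩ := TopologicalSpace.isOpen_iUnion_countable
      (fun M0 : KZ => {M : Mat | Eqm (N (s, M0.1)) (s, M0.1) (s, M)})
      (fun M0 => isOpen_eqm _ (s, M0.1))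
    set G : Set Mat := ⋃ M0 : KZ, {M : Mat | Eqm (N (s, M0.1)) (s, M0.1) (s, M)} with hG
    have hGo : IsOpen G := isOpen_iUnion fun M0 => isOpen_eqm _ (s, M0.1)
    set K' : Set Mat := K \ G with hK'
    have hK'c : IsClosed K' := hK.sdiff hGo
    have hK'1 : ∀ M ∈ K', ∃ p ∈ S, M [] p ∈ B := by
      intro M hM
      by_contra hcon
      push Not at hcon
      exact hM.2 (mem_iUnion.2 ⟨⟨M, hM.1, hcon⟩, Eqm.refl _ _⟩)
    -- the image in the finite power
    let en : Fin S.card ≃ S := S.equivFin.symm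
    let Φ : Mat → (Fin S.card → (ℕ → Bool)) := fun M i => M [] (en i).1
    have hΦ : Continuous Φ := by
      refine continuous_pi fun i => ?_
      show Continuous fun M : Mat => M [] (en i).1
      fun_prop
    have hL : IsClosed (Φ '' K') := (hK'c.isCompact.image hΦ).isClosed
    obtain ⟨C0, hC0, hC0'⟩ := hB S.card (Φ '' K') hL (by
      rintro _ ⟨M, hM, rfl⟩
      obtain ⟨p, hp, hpB⟩ := hK'1 M hM
      refine ⟨en.symm ⟨p, hp⟩, ?_⟩
      show M [] (en (en.symm ⟨p, hp⟩)).1 ∈ B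
      rw [Equiv.apply_symm_apply]
      exact hpB)
    have hstep : ∀ (p : List Bool) (c : ℕ → Bool), p ∈ S → ∃ C : Set Mat, C.Countable ∧
        ∀ M ∈ K', M [] p = c → ∃ M0 ∈ C,
        Eqm (N (s, M0)) (s, M0) (s, M) ∧ Exact B (s, M0) (s, M) := by
      intro p c hp
      have hcl : IsClosed (K' ∩ {M : Mat | M [] p = c}) := by
        refine hK'c.inter ?_
        have h2 : Continuous fun M : Mat => M [] p := by fun_prop
        exact isClosed_singleton.preimage h2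
      obtain ⟨C, hC, hC'⟩ := ih (S.erase p) (by rw [Finset.card_erase_of_mem hp, hS]; rfl)
        (K' ∩ {M : Mat | M [] p = c}) hcl (by
          intro q hq hqS M hM M' hM'
          by_cases hqp : q = p
          · subst hqp
            exact hM.2.trans hM'.2.symm
          · refine hc q hq (fun h => hqS (Finset.mem_erase.2 ⟨hqp, h⟩)) M hM.1.1 M' hM'.1.1)
      exact ⟨C, hC, fun M hM h => hC' M ⟨hM, h⟩⟩
    choose! Cf hCf1 hCf2 using hstep
    refine ⟨Subtype.val '' T ∪ ⋃ p ∈ S, ⋃ c ∈ C0, Cf p c, ?_, ?_⟩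
    · refine (hT1.image _).union ?_
      refine S.countable_toSet.biUnion fun p hp => ?_
      exact hC0.biUnion fun c _ => hCf1 p c hp
    · intro M hM
      by_cases hMG : M ∈ G
      · rw [← hT2] at hMG
        simp only [mem_iUnion, mem_ofPred_eq] at hMG
        obtain ⟨M0, hM0, h2⟩ := hMG
        refine ⟨M0.1, Or.inl ⟨M0, hM0, rfl⟩, h2, fun p hp hpB => ?_⟩
        by_cases hpS : p ∈ S
        · exact absurd hpB (M0.2.2 p hpS)
        · exact hc p hp hpS M hM M0.1 M0.2.1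
      · have hMK : M ∈ K' := ⟨hM, hMG⟩
        obtain ⟨i, hi⟩ := hC0' (Φ M) ⟨M, hMK, rfl⟩
        obtain ⟨M0, hM0, h3⟩ := hCf2 (en i).1 (M [] (en i).1) (en i).2 M hMK rfl
        refine ⟨M0, Or.inr ?_, h3⟩
        simp only [mem_iUnion]
        exact ⟨(en i).1, (en i).2, M [] (en i).1, hi, hM0⟩

/-- the fine topology is Lindelof -/
theorem lind {B : Set (ℕ → Bool)} (hB : Good B) (N : HH → ℕ) :
    ∃ C : Set HH, C.Countable ∧ ∀ z, ∃ c ∈ C, Eqm (N c) c z ∧ Exact B c z := by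
  classical
  have h1 : ∀ s : Tm Unit, ∃ C : Set Mat, C.Countable ∧ ∀ M : Mat, ∃ M0 ∈ C,
      Eqm (N (s, M0)) (s, M0) (s, M) ∧ Exact B (s, M0) (s, M) := by
    intro s
    obtain ⟨C, hC, hC'⟩ := lind_aux hB s N _ (finite_reach s).toFinset rfl univ isClosed_univ
      (fun p hp hpS => absurd ((finite_reach s).mem_toFinset.2 hp) hpS)
    exact ⟨C, hC, fun M => hC' M (mem_univ _)⟩
  choose C hC hC' using h1
  refine ⟨⋃ s : Tm Unit, (fun M => (s, M)) '' C s, countable_iUnion fun s => (hC s).image _, ?_⟩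
  rintro ⟨s, M⟩
  obtain ⟨M0, hM0, h2⟩ := hC' s M
  exact ⟨(s, M0), mem_iUnion.2 ⟨s, M0, hM0, rfl⟩, h2⟩

end Pool.Agent.TH566.CL
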