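import Pool.Agent.TH566.CL.Legit

set_option autoImplicit false

open Cardinal Set

namespace Pool.Agent.TH566.CL

open Tm

/-- matrices of points of the Cantor set -/
abbrev Mat := List Bool → List Bool → ℕ → Bool

/-- shapes with matrices -/
abbrev HH := Tm Unit × Mat

/-- equality up to precision `m` -/
def Eqm (m : ℕ) (z z' : HH) : Prop :=
  z.1 = z'.1 ∧ ∀ p q : List Bool, ∀ i, p.length < m → q.length < m → i < m →
    z.2 p q i = z'.2 p q i

theorem Eqm.refl (m : ℕ) (z : HH) : Eqm m z z := ⟨rfl, fun _ _ _ _ _ _ => rfl⟩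

theorem Eqm.symm {m : ℕ} {z z' : HH} (h : Eqm m z z') : Eqm m z' z :=
  ⟨h.1.symm, fun p q i h1 h2 h3 => (h.2 p q i h1 h2 h3).symm⟩

theorem Eqm.trans {m : ℕ} {z z' z'' : HH} (h : Eqm m z z') (h' : Eqm m z' z'') :
    Eqm m z z'' :=
  ⟨h.1.trans h'.1, fun p q i h1 h2 h3 => (h.2 p q i h1 h2 h3).trans (h'.2 p q i h1 h2 h3)⟩

theorem Eqm.mono {k m : ℕ} (hkm : k ≤ m) {z z' : HH} (h : Eqm m z z') : Eqm k z z' :=
  ⟨h.1, fun p q i h1 h2 h3 => h.2 p q i (h1.trans_le hkm) (h2.trans_le hkm) (h3.trans_le hkm)⟩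

theorem exists_not_eqm {z z' : HH} (h : z ≠ z') : ∃ m, ∀ m', m ≤ m' → ¬ Eqm m' z z' := by
  by_cases h1 : z.1 = z'.1
  · have h2 : z.2 ≠ z'.2 := fun h2 => h (Prod.ext h1 h2)
    simp only [ne_eq, funext_iff, not_forall] at h2
    obtain ⟨p, q, i, h2⟩ := h2
    refine ⟨p.length + q.length + i + 1, fun m' hm h3 => h2 (h3.2 p q i ?_ ?_ ?_)⟩ <;> omega
  · exact ⟨0, fun m' _ h2 => h1 h2.1⟩

/-- the structure below a path -/
def sub (p : List Bool) (z : HH) : HH :=
  ((sub? z.1 p).getD z.1, fun p' q => z.2 (p ++ p') q)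

@[simp] theorem sub_nil (z : HH) : sub [] z = z := by
  unfold sub
  simp

theorem sub_sub {p : List Bool} {z : HH} {x : Tm Unit} (h : sub? z.1 p = some x)
    {q : List Bool} {y : Tm Unit} (h' : sub? x q = some y) :
    sub q (sub p z) = sub (p ++ q) z := by
  have h1 : (sub p z).1 = x := by simp [sub, h]
  have h2 : sub? z.1 (p ++ q) = some y := by rw [sub?_append_of h, h']
  refine Prod.ext ?_ ?_
  · show (sub? (sub p z).1 q).getD _ = (sub? z.1 (p ++ q)).getD _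
    rw [h1, h', h2]; rfl
  · funext p' q'
    show z.2 (p ++ (q ++ p')) q' = z.2 ((p ++ q) ++ p') q'
    rw [List.append_assoc]

theorem Eqm.sub {m : ℕ} {p : List Bool} {z z' : HH} (h : Eqm (m + p.length) z z') :
    Eqm m (sub p z) (sub p z') := by
  refine ⟨?_, ?_⟩
  · show (sub? z.1 p).getD z.1 = (sub? z'.1 p).getD z'.1
    rw [h.1]
  · intro a b i h1 h2 h3
    show z.2 (p ++ a) b i = z'.2 (p ++ a) b i
    refine h.2 _ _ _ ?_ ?_ ?_
    · rw [List.length_append]; omega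
    · omega
    · omega

variable {κ : Type} [LinearOrder κ]

/-- coordinates of a term -/
def emb (b : κ → κ → ℕ → Bool) (t : Tm κ) : HH :=
  (map (fun _ => ()) t, fun p q =>
    match sub? t p with
    | none => fun _ => false
    | some x => match sub? x q with
      | none => fun _ => false
      | some y => b (lab x) (lab y))

variable {b : κ → κ → ℕ → Bool}

theorem emb_fst (t : Tm κ) : (emb b t).1 = map (fun _ => ()) t := rfl

theorem emb_root {t x : Tm κ} {p : List Bool} (h : sub? t p = some x) :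
    (emb b t).2 [] p = b (lab t) (lab x) := by
  unfold emb
  simp [h]

theorem sub_emb {t x : Tm κ} {p : List Bool} (h : sub? t p = some x) :
    sub p (emb b t) = emb b x := by
  refine Prod.ext ?_ ?_
  · show (sub? (map (fun _ => ()) t) p).getD _ = _
    rw [sub?_map, h]; rfl
  · funext p' q
    show (emb b t).2 (p ++ p') q = (emb b x).2 p' q
    unfold emb
    simp only [sub?_append_of h]

theorem sub?_emb {t : Tm κ} {p : List Bool} (h : Reach 0 (emb b t).1 p) :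
    ∃ x, sub? t p = some x := by
  rw [emb_fst, reach_map, reach_zero_iff] at h
  exact h

/-- the node at path `p` of the point `(g, z)` has exactly the label `c` -/
def Lb (b : κ → κ → ℕ → Bool) (g : κ) (z : HH) (p : List Bool) (c : κ) : Prop :=
  (p = [] ∧ c = g) ∨ (p ≠ [] ∧ Reach 0 z.1 p ∧ c < g ∧ z.2 [] p = b g c)

theorem Lb.reach {g : κ} {z : HH} {p : List Bool} {c : κ} (h : Lb b g z p c) :
    Reach 0 z.1 p := by
  rcases h with ⟨rfl, -⟩ | ⟨-, h, -⟩
  · simp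
  · exact h

theorem lb_emb {e : κ → κ → ℕ} (hb : ∀ g, InjOn (b g) (Iio g)) {t : Tm κ} (ht : Legit e t)
    {p : List Bool} {c : κ} :
    Lb b (lab t) (emb b t) p c ↔ ∃ x, sub? t p = some x ∧ lab x = c := by
  constructor
  · rintro (⟨rfl, rfl⟩ | ⟨hp, hr, hc, hM⟩)
    · exact ⟨t, by simp, rfl⟩
    · obtain ⟨x, hx⟩ := sub?_emb hr
      rw [emb_root hx] at hM
      exact ⟨x, hx, hb _ (ht.lab_lt hx hp) hc hM⟩
  · rintro ⟨x, hx, rfl⟩
    by_cases hp : p = []
    · subst hp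
      simp at hx
      subst hx
      exact Or.inl ⟨rfl, rfl⟩
    · right
      refine ⟨hp, ?_, ht.lab_lt hx hp, emb_root hx⟩
      rw [emb_fst, reach_map, reach_zero_iff]
      exact ⟨x, hx⟩

/-- indices of the subbasic clopen sets -/
structure Idx (κ : Type) where
  m : ℕ
  g : κ
  τ : HH
  E : List (List Bool × κ)

/-- local form of membership, at the path `p` -/
def Wat (b : κ → κ → ℕ → Bool) (i : Idx κ) (x : κ × HH) (p : List Bool) : Prop :=
  Reach i.m x.2.1 p ∧ Lb b x.1 x.2 p i.g ∧ Eqm i.m (sub p x.2) i.τ ∧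
    ∀ q ∈ i.E, Lb b x.1 x.2 (p ++ q.1) q.2

/-- the subbasic clopen sets -/
def W (b : κ → κ → ℕ → Bool) (i : Idx κ) : Set (κ × HH) := {x | ∃ p, Wat b i x p}

/-- the point given by a term -/
def pt (b : κ → κ → ℕ → Bool) (t : Tm κ) : κ × HH := (lab t, emb b t)

/-- membership for terms -/
def Wt (b : κ → κ → ℕ → Bool) (i : Idx κ) (y : Tm κ) : Prop :=
  lab y = i.g ∧ Eqm i.m (emb b y) i.τ ∧ ∀ q ∈ i.E, ∃ x, sub? y q.1 = some x ∧ lab x = q.2

theorem pt_mem_W {e : κ → κ → ℕ} (hb : ∀ g, InjOn (b g) (Iio g)) {t : Tm κ} (ht : Legit e t)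
    (i : Idx κ) : pt b t ∈ W b i ↔ ∃ y, In i.m y t ∧ Wt b i y := by
  constructor
  · rintro ⟨p, h1, h2, h3, h4⟩
    obtain ⟨y, hy⟩ := sub?_emb (reach_mono (Nat.zero_le _) h1)
    have h1' : Reach i.m t p := by
      have : Reach i.m (map (fun _ => ()) t) p := h1
      rwa [reach_map] at this
    refine ⟨y, ⟨p, h1', hy⟩, ?_, ?_, ?_⟩
    · obtain ⟨x, hx, hx'⟩ := (lb_emb hb ht).1 h2
      rw [hy] at hx
      rw [Option.some.inj hx]; exact hx'
    · have := sub_emb (b := b) hy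
      change Eqm i.m (sub p (emb b t)) i.τ at h3
      rwa [this] at h3
    · intro q hq
      obtain ⟨x, hx, hx'⟩ := (lb_emb hb ht).1 (h4 q hq)
      rw [sub?_append_of hy] at hx
      exact ⟨x, hx, hx'⟩
  · rintro ⟨y, ⟨p, hp, hy⟩, h1, h2, h3⟩
    refine ⟨p, ?_, ?_, ?_, ?_⟩
    · show Reach i.m (map (fun _ => ()) t) p
      rwa [reach_map]
    · exact (lb_emb hb ht).2 ⟨y, hy, h1⟩
    · show Eqm i.m (sub p (emb b t)) i.τ
      rwa [sub_emb hy]
    · intro q hq
      obtain ⟨x, hx, hx'⟩ := h3 q hq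
      refine (lb_emb hb ht).2 ⟨x, ?_, hx'⟩
      rw [sub?_append_of hy, hx]

/-- coordinates in `B` must be kept exactly -/
def Exact (B : Set (ℕ → Bool)) (z z' : HH) : Prop :=
  ∀ p, Reach 0 z.1 p → z.2 [] p ∈ B → z'.2 [] p = z.2 [] p

theorem Exact.refl (B : Set (ℕ → Bool)) (z : HH) : Exact B z z := fun _ _ _ => rfl

/-- local constancy in the fine topology -/
def LC (B : Set (ℕ → Bool)) (z : HH) (P : HH → Prop) : Prop :=
  ∃ N, ∀ z', Eqm N z z' → Exact B z z' → (P z' ↔ P z)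

theorem LC.not {B : Set (ℕ → Bool)} {z : HH} {P : HH → Prop} (h : LC B z P) :
    LC B z (fun z' => ¬ P z') := by
  obtain ⟨N, hN⟩ := h
  exact ⟨N, fun z' h1 h2 => not_congr (hN z' h1 h2)⟩

theorem LC.and {B : Set (ℕ → Bool)} {z : HH} {P Q : HH → Prop} (h : LC B z P)
    (h' : LC B z Q) : LC B z (fun z' => P z' ∧ Q z') := by
  obtain ⟨N, hN⟩ := h
  obtain ⟨N', hN'⟩ := h'
  refine ⟨max N N', fun z' h1 h2 => and_congr (hN z' (h1.mono (le_max_left _ _)) h2)
    (hN' z' (h1.mono (le_max_right _ _)) h2)⟩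

theorem LC.or {B : Set (ℕ → Bool)} {z : HH} {P Q : HH → Prop} (h : LC B z P)
    (h' : LC B z Q) : LC B z (fun z' => P z' ∨ Q z') := by
  obtain ⟨N, hN⟩ := h
  obtain ⟨N', hN'⟩ := h'
  refine ⟨max N N', fun z' h1 h2 => or_congr (hN z' (h1.mono (le_max_left _ _)) h2)
    (hN' z' (h1.mono (le_max_right _ _)) h2)⟩

theorem LC.const (B : Set (ℕ → Bool)) (z : HH) (P : Prop) : LC B z (fun _ => P) :=
  ⟨0, fun _ _ _ => Iff.rfl⟩

theorem LC.forall_finite {B : Set (ℕ → Bool)} {z : HH} {ι : Type} {s : Set ι} (hs : s.Finite)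
    {P : ι → HH → Prop} (h : ∀ i ∈ s, LC B z (P i)) : LC B z (fun z' => ∀ i ∈ s, P i z') := by
  choose! N hN using h
  obtain ⟨M, hM⟩ := (hs.image N).bddAbove
  refine ⟨M, fun z' h1 h2 => forall₂_congr fun i hi => ?_⟩
  exact hN i hi z' (h1.mono (hM ⟨i, hi, rfl⟩)) h2

theorem LC.exists_finite {B : Set (ℕ → Bool)} {z : HH} {ι : Type} {s : Set ι} (hs : s.Finite)
    {P : ι → HH → Prop} (h : ∀ i ∈ s, LC B z (P i)) : LC B z (fun z' => ∃ i ∈ s, P i z') := by
  choose! N hN using h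
  obtain ⟨M, hM⟩ := (hs.image N).bddAbove
  refine ⟨M, fun z' h1 h2 => exists_congr fun i => and_congr_right fun hi => ?_⟩
  exact hN i hi z' (h1.mono (hM ⟨i, hi, rfl⟩)) h2

theorem LC.congr_left {B : Set (ℕ → Bool)} {z : HH} {P Q : HH → Prop} (h : LC B z P)
    (hPQ : ∀ z', z'.1 = z.1 → (Q z' ↔ P z')) : LC B z Q := by
  obtain ⟨N, hN⟩ := h
  refine ⟨N, fun z' h1 h2 => ?_⟩
  rw [hPQ z' h1.1.symm, hPQ z rfl]
  exact hN z' h1 h2

theorem LC.lb {B : Set (ℕ → Bool)} (hB : ∀ g c, b g c ∈ B) (z : HH) (g : κ) (p : List Bool)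
    (c : κ) : LC B z (fun z' => Lb b g z' p c) := by
  unfold Lb
  refine (LC.const B z _).or ?_
  by_cases hr : Reach 0 z.1 p
  · have h1 : LC B z (fun z' => z'.2 [] p = b g c) := by
      by_cases h : z.2 [] p = b g c
      · refine ⟨0, fun z' _ h2 => ?_⟩
        show z'.2 [] p = b g c ↔ z.2 [] p = b g c
        rw [h2 p hr (by rw [h]; exact hB g c)]
      · have h' : ∃ i, z.2 [] p i ≠ b g c i := by
          by_contra hcon
          push Not at hcon
          exact h (funext hcon)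
        obtain ⟨i, hi⟩ := h'
        refine ⟨p.length + i + 1, fun z' h1 _ => ?_⟩
        refine iff_of_false (fun h3 => hi ?_) h
        rw [h1.2 [] p i (by simp) (by omega) (by omega), h3]
    refine LC.congr_left ((LC.const B z (p ≠ [] ∧ c < g)).and h1) ?_
    intro z' hz
    constructor
    · rintro ⟨h1, -, h2, h3⟩; exact ⟨⟨h1, h2⟩, h3⟩
    · rintro ⟨⟨h1, h2⟩, h3⟩; exact ⟨h1, by rw [hz]; exact hr, h2, h3⟩
  · refine LC.congr_left (LC.const B z False) ?_
    intro z' hz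
    constructor
    · rintro ⟨-, h2, -⟩
      rw [hz] at h2
      exact hr h2
    · exact False.elim

theorem LC.wat {B : Set (ℕ → Bool)} (hB : ∀ g c, b g c ∈ B) (z : HH) (g : κ) (i : Idx κ)
    (p : List Bool) : LC B z (fun z' => Wat b i (g, z') p) := by
  unfold Wat
  refine LC.and ?_ (LC.and (LC.lb hB z g p i.g) (LC.and ?_ ?_))
  · refine LC.congr_left (LC.const B z (Reach i.m z.1 p)) ?_
    intro z' hz
    simp only [hz]
  · refine ⟨i.m + p.length, fun z' h1 _ => ?_⟩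
    exact ⟨fun h => (h1.sub).trans h, fun h => (h1.sub).symm.trans h⟩
  · have := LC.forall_finite (B := B) (z := z) (s := {q | q ∈ i.E})
      (List.finite_toSet i.E) (P := fun q z' => Lb b g z' (p ++ q.1) q.2)
      (fun q _ => LC.lb hB z g (p ++ q.1) q.2)
    exact this

theorem LC.mem {B : Set (ℕ → Bool)} (hB : ∀ g c, b g c ∈ B) (z : HH) (g : κ) (i : Idx κ) :
    LC B z (fun z' => ((g, z') : κ × HH) ∈ W b i) := by
  have h1 := LC.exists_finite (B := B) (z := z) (s := {p | Reach 0 z.1 p}) (finite_reach z.1)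
    (P := fun p z' => Wat b i (g, z') p) (fun p _ => LC.wat hB z g i p)
  refine LC.congr_left h1 ?_
  intro z' hz
  constructor
  · rintro ⟨p, hp⟩
    refine ⟨p, ?_, hp⟩
    have := reach_mono (Nat.zero_le _) hp.1
    simp only [hz] at this
    exact this
  · rintro ⟨p, -, hp⟩
    exact ⟨p, hp⟩

/-- the underlying set of the space -/
def Xset (e : κ → κ → ℕ) (b : κ → κ → ℕ → Bool) (B : Set (ℕ → Bool)) : Set (κ × HH) :=
  {x | ∀ N, ∃ t, Legit e t ∧ lab t = x.1 ∧ Eqm N x.2 (emb b t) ∧ Exact B x.2 (emb b t)}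

theorem pt_mem {e : κ → κ → ℕ} {B : Set (ℕ → Bool)} {t : Tm κ} (ht : Legit e t) :
    pt b t ∈ Xset e b B :=
  fun _ => ⟨t, ht, rfl, Eqm.refl _ _, Exact.refl _ _⟩

/-- density of the terms -/
theorem dense_terms {e : κ → κ → ℕ} {B : Set (ℕ → Bool)} (hB : ∀ g c, b g c ∈ B)
    {x : κ × HH} (hx : x ∈ Xset e b B) (J : Set (Idx κ)) (hJ : J.Finite) :
    ∃ t, Legit e t ∧ lab t = x.1 ∧ ∀ i ∈ J, (pt b t ∈ W b i ↔ x ∈ W b i) := by
  choose N hN using fun i => LC.mem hB x.2 x.1 i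
  obtain ⟨M, hM⟩ := (hJ.image N).bddAbove
  obtain ⟨t, ht, h1, h2, h3⟩ := hx M
  refine ⟨t, ht, h1, fun i hi => ?_⟩
  have := hN i (emb b t) (h2.mono (hM ⟨i, hi, rfl⟩)) h3
  unfold pt
  rw [h1]
  exact this

end Pool.Agent.TH566.CL
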