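import Mathlib

set_option autoImplicit false

open Cardinal Set

namespace Pool.Agent.TH566.CL

/-- finite binary terms with labels in `α` and levels in `ℕ` at the inner nodes -/
inductive Tm (α : Type) : Type
  | leaf (a : α) : Tm α
  | node (a : α) (n : ℕ) (l r : Tm α) : Tm α

namespace Tm

variable {α β : Type}

def lab : Tm α → α
  | leaf a => a
  | node a _ _ _ => a

def lev : Tm α → ℕ
  | leaf _ => 0
  | node _ n _ _ => n

def size : Tm α → ℕ
  | leaf _ => 1
  | node _ _ l r => size l + size r + 1

def map (f : α → β) : Tm α → Tm β
  | leaf a => leaf (f a)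
  | node a n l r => node (f a) n (map f l) (map f r)

/-- subterm at a path -/
def sub? : Tm α → List Bool → Option (Tm α)
  | t, [] => some t
  | leaf _, _ :: _ => none
  | node _ _ l _, false :: p => sub? l p
  | node _ _ _ r, true :: p => sub? r p

/-- all nodes strictly above the end of the path have level at least `k` -/
def Reach (k : ℕ) : Tm α → List Bool → Prop
  | _, [] => True
  | leaf _, _ :: _ => False
  | node _ n l _, false :: p => k ≤ n ∧ Reach k l p
  | node _ n _ r, true :: p => k ≤ n ∧ Reach k r p

@[simp] theorem sub?_nil (t : Tm α) : sub? t [] = some t := by cases t <;> rfl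
@[simp] theorem reach_nil (k : ℕ) (t : Tm α) : Reach k t [] := by cases t <;> trivial
@[simp] theorem sub?_leaf_cons (a : α) (c : Bool) (p : List Bool) :
    sub? (leaf a) (c :: p) = none := by cases c <;> rfl
@[simp] theorem reach_leaf_cons (k : ℕ) (a : α) (c : Bool) (p : List Bool) :
    ¬ Reach k (leaf a) (c :: p) := by cases c <;> exact id
@[simp] theorem sub?_node_false (a : α) (n : ℕ) (l r : Tm α) (p : List Bool) :
    sub? (node a n l r) (false :: p) = sub? l p := rfl
@[simp] theorem sub?_node_true (a : α) (n : ℕ) (l r : Tm α) (p : List Bool) :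
    sub? (node a n l r) (true :: p) = sub? r p := rfl
@[simp] theorem reach_node_false (k : ℕ) (a : α) (n : ℕ) (l r : Tm α) (p : List Bool) :
    Reach k (node a n l r) (false :: p) ↔ k ≤ n ∧ Reach k l p := Iff.rfl
@[simp] theorem reach_node_true (k : ℕ) (a : α) (n : ℕ) (l r : Tm α) (p : List Bool) :
    Reach k (node a n l r) (true :: p) ↔ k ≤ n ∧ Reach k r p := Iff.rfl

theorem sub?_append (t : Tm α) (p q : List Bool) :
    sub? t (p ++ q) = (sub? t p).bind (fun x => sub? x q) := by
  induction p generalizing t with
  | nil => simp
  | cons c p ih =>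
    cases t with
    | leaf a => simp
    | node a n l r => cases c <;> simp [ih]

theorem sub?_append_of {t x : Tm α} {p : List Bool} (h : sub? t p = some x) (q : List Bool) :
    sub? t (p ++ q) = sub? x q := by
  rw [sub?_append, h]; rfl

theorem reach_append {k : ℕ} {t x : Tm α} {p : List Bool} (h : sub? t p = some x)
    (q : List Bool) : Reach k t (p ++ q) ↔ Reach k t p ∧ Reach k x q := by
  induction p generalizing t with
  | nil => simp at h; subst h; simp
  | cons c p ih =>
    cases t with
    | leaf a => simp at h
    | node a n l r =>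
      cases c
      · simp only [sub?_node_false] at h
        simp [ih h, and_assoc]
      · simp only [sub?_node_true] at h
        simp [ih h, and_assoc]

theorem reach_mono {k m : ℕ} (h : k ≤ m) {t : Tm α} {p : List Bool} (hr : Reach m t p) :
    Reach k t p := by
  induction p generalizing t with
  | nil => simp
  | cons c p ih =>
    cases t with
    | leaf a => simp at hr
    | node a n l r => cases c <;> exact ⟨h.trans hr.1, ih hr.2⟩

theorem reach_zero_iff {t : Tm α} {p : List Bool} :
    Reach 0 t p ↔ ∃ x, sub? t p = some x := by
  induction p generalizing t with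
  | nil => simp
  | cons c p ih =>
    cases t with
    | leaf a => simp
    | node a n l r => cases c <;> simp [ih]

theorem exists_of_reach {k : ℕ} {t : Tm α} {p : List Bool} (h : Reach k t p) :
    ∃ x, sub? t p = some x := reach_zero_iff.1 (reach_mono (Nat.zero_le k) h)

theorem finite_reach (t : Tm α) : {p | Reach 0 t p}.Finite := by
  induction t with
  | leaf a =>
    refine (Set.finite_singleton ([] : List Bool)).subset ?_
    intro p hp
    cases p with
    | nil => rfl
    | cons c p => exact absurd hp (by simp)
  | node a n l r ihl ihr =>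
    refine ((ihl.image (fun p => false :: p)).union
      ((ihr.image (fun p => true :: p)).union (Set.finite_singleton ([] : List Bool)))).subset ?_
    intro p hp
    cases p with
    | nil => right; right; rfl
    | cons c p =>
      cases c
      · left; exact ⟨p, hp.2, rfl⟩
      · right; left; exact ⟨p, hp.2, rfl⟩

/-- `In k y x`: `y` is a subterm of `x` reached through nodes of level at least `k` -/
def In (k : ℕ) (y x : Tm α) : Prop := ∃ p, Reach k x p ∧ sub? x p = some y

theorem In.refl (k : ℕ) (x : Tm α) : In k x x := ⟨[], by simp, by simp⟩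

theorem In.trans {k : ℕ} {x y z : Tm α} (h1 : In k x y) (h2 : In k y z) : In k x z := by
  obtain ⟨p, hp, hp'⟩ := h1
  obtain ⟨q, hq, hq'⟩ := h2
  exact ⟨q ++ p, (reach_append hq' p).2 ⟨hq, hp⟩, by rw [sub?_append_of hq', hp']⟩

theorem In.mono {k m : ℕ} (h : k ≤ m) {x y : Tm α} (h1 : In m x y) : In k x y := by
  obtain ⟨p, hp, hp'⟩ := h1
  exact ⟨p, reach_mono h hp, hp'⟩

theorem In.le_lev {k : ℕ} {x y : Tm α} (h : In k x y) (hne : x ≠ y) : k ≤ lev y := by
  obtain ⟨p, hp, hp'⟩ := h
  cases p with
  | nil => simp at hp'; exact absurd hp'.symm hne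
  | cons c p =>
    cases y with
    | leaf a => simp at hp
    | node a n l r => cases c <;> exact hp.1

theorem in_leaf {k : ℕ} {x : Tm α} {a : α} : In k x (leaf a) ↔ x = leaf a := by
  constructor
  · rintro ⟨p, hp, hp'⟩
    cases p with
    | nil => simpa using hp'.symm
    | cons c p => simp at hp
  · rintro rfl; exact In.refl _ _

theorem in_node {k : ℕ} {x : Tm α} {a : α} {n : ℕ} {l r : Tm α} :
    In k x (node a n l r) ↔ x = node a n l r ∨ (k ≤ n ∧ (In k x l ∨ In k x r)) := by
  constructor
  · rintro ⟨p, hp, hp'⟩
    cases p with
    | nil => left; simpa using hp'.symm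
    | cons c p =>
      right
      cases c
      · exact ⟨hp.1, Or.inl ⟨p, hp.2, hp'⟩⟩
      · exact ⟨hp.1, Or.inr ⟨p, hp.2, hp'⟩⟩
  · rintro (rfl | ⟨h, ⟨p, hp, hp'⟩ | ⟨p, hp, hp'⟩⟩)
    · exact In.refl _ _
    · exact ⟨false :: p, ⟨h, hp⟩, hp'⟩
    · exact ⟨true :: p, ⟨h, hp⟩, hp'⟩

@[simp] theorem lab_map (f : α → β) (t : Tm α) : lab (map f t) = f (lab t) := by
  cases t <;> rfl
@[simp] theorem lev_map (f : α → β) (t : Tm α) : lev (map f t) = lev t := by
  cases t <;> rfl
@[simp] theorem size_map (f : α → β) (t : Tm α) : size (map f t) = size t := by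
  induction t with
  | leaf a => rfl
  | node a n l r ihl ihr => simp [map, size, ihl, ihr]

theorem sub?_map (f : α → β) (t : Tm α) (p : List Bool) :
    sub? (map f t) p = (sub? t p).map (map f) := by
  induction p generalizing t with
  | nil => simp
  | cons c p ih =>
    cases t with
    | leaf a => simp [map]
    | node a n l r => cases c <;> simp [map, ih]

theorem reach_map (f : α → β) (k : ℕ) (t : Tm α) (p : List Bool) :
    Reach k (map f t) p ↔ Reach k t p := by
  induction p generalizing t with
  | nil => simp
  | cons c p ih =>
    cases t with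
    | leaf a => simp [map]
    | node a n l r => cases c <;> simp [map, ih]

open Classical in
/-- the finite set of labels -/
noncomputable def labs : Tm α → Finset α
  | leaf a => {a}
  | node a _ l r => insert a (labs l ∪ labs r)

theorem lab_mem_labs (t : Tm α) : lab t ∈ labs t := by
  classical
  cases t <;> simp [labs, lab]

theorem card_labs_le (t : Tm α) : (labs t).card ≤ size t := by
  classical
  induction t with
  | leaf a => simp [labs, size]
  | node a n l r ihl ihr =>
    simp only [labs, size]
    refine (Finset.card_insert_le _ _).trans ?_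
    have := Finset.card_union_le (labs l) (labs r)
    omega

theorem labs_subset_of_sub? {t x : Tm α} {p : List Bool} (h : sub? t p = some x) :
    labs x ⊆ labs t := by
  classical
  induction p generalizing t with
  | nil => simp at h; subst h; exact Finset.Subset.refl _
  | cons c p ih =>
    cases t with
    | leaf a => simp at h
    | node a n l r =>
      cases c
      · refine (ih h).trans ?_
        intro z hz; simp [labs, hz]
      · refine (ih h).trans ?_
        intro z hz; simp [labs, hz]

theorem map_eq_imp {f : α → β} {s t : Tm α} (h : map f s = map f t)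
    (hf : ∀ c ∈ labs s, ∀ d, f c = f d → c = d) : s = t := by
  classical
  induction s generalizing t with
  | leaf a =>
    cases t with
    | leaf c =>
      simp only [map, leaf.injEq] at h
      rw [hf a (by simp [labs]) c h]
    | node => simp [map] at h
  | node a n l r ihl ihr =>
    cases t with
    | leaf c => simp [map] at h
    | node a' n' l' r' =>
      simp only [map, node.injEq] at h
      obtain ⟨h1, h2, h3, h4⟩ := h
      rw [hf a (by simp [labs]) a' h1, h2, ihl h3 fun c hc => hf c (by simp [labs, hc]),
        ihr h4 fun c hc => hf c (by simp [labs, hc])]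

theorem in_of_map_eq {f : α → β} {s t : Tm α} (h : map f s = map f t) {k : ℕ} {x : Tm α}
    (hx : In k x s) (hf : ∀ c ∈ labs x, ∀ d, f c = f d → c = d) : In k x t := by
  induction s generalizing t with
  | leaf a =>
    rw [in_leaf] at hx
    subst hx
    rw [← map_eq_imp h hf]
    exact In.refl _ _
  | node a n l r ihl ihr =>
    rw [in_node] at hx
    rcases hx with hx | ⟨h1, h2⟩
    · subst hx
      rw [← map_eq_imp h hf]
      exact In.refl _ _
    · cases t with
      | leaf c => simp [map] at h
      | node a' n' l' r' =>
        simp only [map, node.injEq] at h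
        obtain ⟨-, h4, h5, h6⟩ := h
        subst h4
        rw [in_node]
        right
        refine ⟨h1, ?_⟩
        rcases h2 with h2 | h2
        · exact Or.inl (ihl h5 h2)
        · exact Or.inr (ihr h6 h2)

/-- code of a term as a list -/
def code : Tm α → List (Option (α × ℕ) ⊕ α)
  | leaf a => [Sum.inr a]
  | node a n l r => Sum.inl (some (a, n)) :: (code l ++ code r)

theorem code_append_inj (s : Tm α) : ∀ (t : Tm α) (x y : List (Option (α × ℕ) ⊕ α)),
    code s ++ x = code t ++ y → s = t ∧ x = y := by
  induction s with
  | leaf a =>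
    intro t x y h
    cases t with
    | leaf c => simp [code] at h; simp [h]
    | node c n l r => simp [code] at h
  | node a n l r ihl ihr =>
    intro t x y h
    cases t with
    | leaf c => simp [code] at h
    | node c n' l' r' =>
      simp only [code, List.cons_append, List.append_assoc, List.cons.injEq, Sum.inl.injEq,
        Option.some.injEq, Prod.mk.injEq] at h
      obtain ⟨⟨rfl, rfl⟩, h2⟩ := h
      obtain ⟨rfl, h3⟩ := ihl _ _ _ h2
      obtain ⟨rfl, h4⟩ := ihr _ _ _ h3
      exact ⟨rfl, h4⟩

theorem code_injective : Function.Injective (code (α := α)) := by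
  intro s t h
  exact (code_append_inj s t [] [] (by simpa using h)).1

instance [Countable α] : Countable (Tm α) := code_injective.countable

theorem mk_le (c : Cardinal.{0}) (hc : ℵ₀ ≤ c) (h : #α ≤ c) : #(Tm α) ≤ c := by
  refine (Cardinal.mk_le_of_injective code_injective).trans ?_
  refine (Cardinal.mk_list_le_max _).trans ?_
  refine max_le hc ?_
  rw [Cardinal.mk_sum, Cardinal.lift_id, Cardinal.lift_id, Cardinal.mk_option, Cardinal.mk_prod,
    Cardinal.lift_id, Cardinal.lift_id]
  have h1 : #α * #ℕ ≤ c := by
    refine (mul_le_mul' h (Cardinal.mk_nat.le.trans hc)).trans ?_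
    rw [Cardinal.mul_eq_self hc]
  refine (add_le_add (add_le_add h1 (Cardinal.one_le_aleph0.trans hc)) h).trans ?_
  rw [Cardinal.add_eq_self hc, Cardinal.add_eq_self hc]

end Tm

end Pool.Agent.TH566.CL
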