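import Pool.Agent.TH566.CL.Lind

set_option autoImplicit false

open Cardinal Set Topology

namespace Pool.Agent.TH566.CL

open Tm

/-- all the data -/
structure Data (κ : Type) [LinearOrder κ] where
  e : κ → κ → ℕ
  b : κ → κ → ℕ → Bool
  B : Set (ℕ → Bool)
  hk : #κ = Order.succ 𝔠
  hI : ∀ a : κ, #(Iio a) ≤ 𝔠
  hes : ∀ a b, e a b = e b a
  he0 : ∀ a, e a a = 0
  he : ∀ (m n : ℕ) (a : κ → Finset κ), (∀ i, (a i).card ≤ m) →
        (∀ i j, i < j → ∀ x ∈ a i, ∀ y ∈ a j, x < y) →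
        ∃ i j, i < j ∧ ∀ x ∈ a i, ∀ y ∈ a j, n < e x y
  hb : ∀ g, InjOn (b g) (Iio g)
  hB : ∀ g c, b g c ∈ B
  hG : Good B

variable {κ : Type} [LinearOrder κ]

theorem Lb.unique {b : κ → κ → ℕ → Bool} (hb : ∀ g, InjOn (b g) (Iio g)) {g : κ} {z : HH}
    {p : List Bool} {c d : κ} (h : Lb b g z p c) (h' : Lb b g z p d) : c = d := by
  rcases h with ⟨h1, h2⟩ | ⟨h1, h2, h3, h4⟩ <;> rcases h' with ⟨h1', h2'⟩ | ⟨h1', h2', h3', h4'⟩
  · rw [h2, h2']
  · exact absurd h1 h1'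
  · exact absurd h1' h1
  · exact hb g h3 h3' (h4.symm.trans h4')

theorem finite_lb {b : κ → κ → ℕ → Bool} (hb : ∀ g, InjOn (b g) (Iio g)) (g : κ) (z : HH) :
    {q : List Bool × κ | Lb b g z q.1 q.2}.Finite := by
  refine Set.Finite.of_finite_image (f := Prod.fst) ((finite_reach z.1).subset ?_) ?_
  · rintro _ ⟨q, hq, rfl⟩
    exact Lb.reach hq
  · rintro ⟨p, c⟩ hq ⟨p', c'⟩ hq' h
    simp only at h
    subst h
    exact Prod.ext rfl (Lb.unique hb hq hq')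

namespace Data

variable (D : Data κ)

/-- the index of the `N`-th basic neighbourhood of a point -/
noncomputable def U (N : ℕ) (x : κ × HH) : Idx κ :=
  ⟨N, x.1, x.2, (finite_lb D.hb x.1 x.2).toFinset.toList⟩

theorem mem_U_E {N : ℕ} {x : κ × HH} {q : List Bool × κ} :
    q ∈ (D.U N x).E ↔ Lb D.b x.1 x.2 q.1 q.2 := by
  unfold U
  simp

/-- largeness of the precision -/
def Large (z : HH) (g : κ) (i : Idx κ) (N : ℕ) : Prop :=
  (∀ p, Reach 0 z.1 p → i.m + p.length < N) ∧ D.e i.g g ≤ N ∧ lev i.τ.1 < N ∧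
    ∀ p, Reach 0 z.1 p → ∀ c, (c = i.g ∨ ∃ q ∈ i.E, c = q.2) →
      (∀ j, j < N → z.2 [] p j = D.b g c j) → z.2 [] p = D.b g c

theorem Large.mono {z : HH} {g : κ} {i : Idx κ} {N N' : ℕ} (h : D.Large z g i N)
    (hN : N ≤ N') : D.Large z g i N' :=
  ⟨fun p hp => (h.1 p hp).trans_le hN, h.2.1.trans hN, h.2.2.1.trans_le hN,
    fun p hp c hc h' => h.2.2.2 p hp c hc fun j hj => h' j (hj.trans_le hN)⟩

theorem exists_large (z : HH) (g : κ) (i : Idx κ) : ∃ N, D.Large z g i N := by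
  classical
  obtain ⟨M, hM⟩ := ((finite_reach z.1).image List.length).bddAbove
  have hfin : {c | c = i.g ∨ ∃ q ∈ i.E, c = q.2}.Finite := by
    refine (Set.finite_singleton i.g).union ?_
    refine ((List.finite_toSet i.E).image Prod.snd).subset ?_
    rintro c ⟨q, hq, rfl⟩
    exact ⟨q, hq, rfl⟩
  have h1 : ∀ (p : List Bool) (c : κ), ∃ n, z.2 [] p ≠ D.b g c → ∃ j < n, z.2 [] p j ≠ D.b g c j := by
    intro p c
    by_cases h : z.2 [] p = D.b g c
    · exact ⟨0, fun h' => absurd h h'⟩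
    · have : ∃ j, z.2 [] p j ≠ D.b g c j := by
        by_contra hcon
        push Not at hcon
        exact h (funext hcon)
      obtain ⟨j, hj⟩ := this
      exact ⟨j + 1, fun _ => ⟨j, Nat.lt_succ_self j, hj⟩⟩
  choose n hn using h1
  obtain ⟨M', hM'⟩ := (((finite_reach z.1).prod hfin).image (fun q => n q.1 q.2)).bddAbove
  refine ⟨(i.m + M + 1) + D.e i.g g + (lev i.τ.1 + 1) + M', ?_, ?_, ?_, ?_⟩
  · intro p hp
    have : p.length ≤ M := hM ⟨p, hp, rfl⟩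
    omega
  · omega
  · omega
  · intro p hp c hc h
    by_contra hcon
    obtain ⟨j, hj, hj'⟩ := hn p c hcon
    have : n p c ≤ M' := hM' ⟨(p, c), ⟨hp, hc⟩, rfl⟩
    exact hj' (h j (by omega))

theorem base_forward {N : ℕ} {x : κ × HH} {i : Idx κ} (hN : D.Large x.2 x.1 i N)
    {q : κ × HH} (hq : q ∈ W D.b (D.U N x)) (hx : x ∈ W D.b i) : q ∈ W D.b i := by
  obtain ⟨r, hr1, hr2, hr3, hr4⟩ := hq
  obtain ⟨p, hp1, hp2, hp3, hp4⟩ := hx
  change Reach N q.2.1 r at hr1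
  change Eqm N (sub r q.2) x.2 at hr3
  have hp0 : Reach 0 x.2.1 p := reach_mono (Nat.zero_le _) hp1
  obtain ⟨y, hy⟩ := exists_of_reach hr1
  have hyx : y = x.2.1 := by
    have h1 : (sub r q.2).1 = y := by
      show (sub? q.2.1 r).getD _ = y
      rw [hy]; rfl
    rw [← h1]; exact hr3.1
  obtain ⟨y', hy'⟩ := exists_of_reach hp1
  have hmN : i.m + p.length < N := hN.1 p hp0
  refine ⟨r ++ p, ?_, ?_, ?_, ?_⟩
  · rw [reach_append hy]
    refine ⟨reach_mono (by omega) hr1, ?_⟩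
    rw [hyx]; exact hp1
  · exact hr4 (p, i.g) ((D.mem_U_E).2 hp2)
  · have h1 : sub (r ++ p) q.2 = sub p (sub r q.2) := by
      rw [sub_sub hy (q := p) (y := y')]
      rw [hyx]; exact hy'
    rw [h1]
    exact ((hr3.mono (by omega : i.m + p.length ≤ N)).sub).trans hp3
  · intro s hs
    have := hr4 (p ++ s.1, s.2) ((D.mem_U_E).2 (hp4 s hs))
    simp only at this
    rwa [← List.append_assoc] at this

theorem base_backward {N : ℕ} {x : κ × HH} {i : Idx κ} (hN : D.Large x.2 x.1 i N)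
    {t : Tm κ} (ht : Legit D.e t) (hq : pt D.b t ∈ W D.b (D.U N x))
    (hq' : pt D.b t ∈ W D.b i) : x ∈ W D.b i := by
  rw [pt_mem_W D.hb ht] at hq hq'
  obtain ⟨y, hyt, hy1, hy2, hy3⟩ := hq
  obtain ⟨y', hyt', hy1', hy2', hy3'⟩ := hq'
  change In N y t at hyt
  change lab y = x.1 at hy1
  change Eqm N (emb D.b y) x.2 at hy2
  have hyL : Legit D.e y := ht.of_in hyt
  have hmN : i.m ≤ N := by
    have := hN.1 [] (by simp)
    simp at this
    omega
  have hin : In i.m y' y := by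
    rcases ht.cond i.m N hmN y' y hyt' hyt with h | h | h
    · exact h
    · by_cases hyy : y = y'
      · rw [hyy]; exact In.refl _ _
      · have h1 := h.le_lev hyy
        have h2 : lev y' = lev i.τ.1 := by
          rw [← hy2'.1, emb_fst, lev_map]
        have h3 := hN.2.2.1
        omega
    · rw [hy1', hy1] at h
      have := hN.2.1
      omega
  obtain ⟨p, hp, hyp⟩ := hin
  have hz1 : Tm.map (fun _ => ()) y = x.2.1 := hy2.1
  have hreach : ∀ {k : ℕ} {p : List Bool}, Reach k y p → Reach k x.2.1 p := by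
    intro k p h
    rw [← hz1, reach_map]; exact h
  -- exact labels
  have key : ∀ (r : List Bool) (w : Tm κ) (c : κ), sub? y r = some w → lab w = c →
      (c = i.g ∨ ∃ q ∈ i.E, c = q.2) → Lb D.b x.1 x.2 r c := by
    intro r w c hw hc hcc
    by_cases hr : r = []
    · subst hr
      simp at hw
      subst hw
      exact Or.inl ⟨rfl, by rw [← hc, hy1]⟩
    · right
      have hr0 : Reach 0 y r := reach_zero_iff.2 ⟨w, hw⟩
      have hr0' : Reach 0 x.2.1 r := hreach hr0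
      refine ⟨hr, hr0', ?_, ?_⟩
      · rw [← hc, ← hy1]; exact hyL.lab_lt hw hr
      · refine hN.2.2.2 r hr0' c hcc fun j hj => ?_
        have h1 := hN.1 r hr0'
        rw [← hy2.2 [] r j (by simp; omega) (by omega) hj, emb_root hw, hy1, hc]
  have hp0' : Reach 0 x.2.1 p := reach_mono (Nat.zero_le _) (hreach hp)
  refine ⟨p, hreach hp, key p y' _ hyp hy1' (Or.inl rfl), ?_, ?_⟩
  · have h1 := hN.1 p hp0'
    have h2 : Eqm i.m (sub p (emb D.b y)) (sub p x.2) := (hy2.mono (by omega)).sub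
    rw [sub_emb hyp] at h2
    exact h2.symm.trans hy2'
  · intro s hs
    obtain ⟨w, hw, hw'⟩ := hy3' s hs
    exact key (p ++ s.1) w s.2 (by rw [sub?_append_of hyp, hw]) hw' (Or.inr ⟨s, hs, rfl⟩)

/-- the space -/
def X : Type := Xset D.e D.b D.B

open Classical in
/-- the characteristic map -/
noncomputable def F (x : D.X) (i : Idx κ) : Bool := decide (x.1 ∈ W D.b i)

noncomputable instance : TopologicalSpace D.X := TopologicalSpace.induced D.F inferInstance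

theorem inducing : IsInducing D.F := ⟨rfl⟩

theorem F_eq {x y : D.X} {i : Idx κ} : D.F x i = D.F y i ↔ (x.1 ∈ W D.b i ↔ y.1 ∈ W D.b i) := by
  unfold F
  exact decide_eq_decide

theorem isClopen_W (i : Idx κ) : IsClopen {x : D.X | x.1 ∈ W D.b i} := by
  have h1 : {x : D.X | x.1 ∈ W D.b i} = (fun x => D.F x i) ⁻¹' {true} := by
    ext x
    simp [F]
  have h2 : Continuous fun x => D.F x i := (continuous_apply i).comp D.inducing.continuous
  rw [h1]
  exact (isClopen_discrete {true}).preimage h2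

/-- basic neighbourhoods, first form -/
theorem exists_finite_of_open {O : Set D.X} (hO : IsOpen O) {x : D.X} (hx : x ∈ O) :
    ∃ J : Finset (Idx κ), ∀ y : D.X, (∀ i ∈ J, (y.1 ∈ W D.b i ↔ x.1 ∈ W D.b i)) → y ∈ O := by
  obtain ⟨V, hV, rfl⟩ := D.inducing.isOpen_iff.1 hO
  rw [isOpen_pi_iff] at hV
  obtain ⟨J, u, hu1, hu2⟩ := hV (D.F x) hx
  refine ⟨J, fun y hy => hu2 ?_⟩
  intro i hi
  have : D.F y i = D.F x i := D.F_eq.2 (hy i hi)
  rw [this]
  exact (hu1 i hi).2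

theorem U_mono {N N' : ℕ} (h : N ≤ N') (x : κ × HH) : W D.b (D.U N' x) ⊆ W D.b (D.U N x) := by
  rintro q ⟨r, hr1, hr2, hr3, hr4⟩
  exact ⟨r, reach_mono h hr1, hr2, hr3.mono h, hr4⟩

theorem self_mem_U (N : ℕ) (x : κ × HH) : x ∈ W D.b (D.U N x) := by
  refine ⟨[], by simp, Or.inl ⟨rfl, rfl⟩, ?_, ?_⟩
  · rw [sub_nil]; exact Eqm.refl _ _
  intro q hq
  exact (D.mem_U_E).1 hq

theorem exists_term {O : Set D.X} (hO : IsOpen O) {x : D.X} (hx : x ∈ O) :
    ∃ (t : Tm κ) (ht : Legit D.e t), (⟨pt D.b t, pt_mem ht⟩ : D.X) ∈ O := by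
  obtain ⟨J, hJ⟩ := D.exists_finite_of_open hO hx
  obtain ⟨t, ht, -, h2⟩ := dense_terms D.hB x.2 (J : Set (Idx κ)) J.finite_toSet
  exact ⟨t, ht, hJ _ fun i hi => h2 i hi⟩

/-- basic neighbourhoods, second form -/
theorem exists_U_subset {O : Set D.X} (hO : IsOpen O) {x : D.X} (hx : x ∈ O) :
    ∃ N, ∀ y : D.X, y.1 ∈ W D.b (D.U N x.1) → y ∈ O := by
  obtain ⟨J, hJ⟩ := D.exists_finite_of_open hO hx
  choose n hn using fun i => D.exists_large x.1.2 x.1.1 i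
  obtain ⟨M, hM⟩ := (J.finite_toSet.image n).bddAbove
  refine ⟨M, fun y hy => hJ y fun i hi => ?_⟩
  have hL : D.Large x.1.2 x.1.1 i M := (hn i).mono _ (hM ⟨i, hi, rfl⟩)
  constructor
  · intro hyi
    -- density
    have ho : IsOpen ({y : D.X | y.1 ∈ W D.b (D.U M x.1)} ∩ {y : D.X | y.1 ∈ W D.b i}) :=
      (D.isClopen_W _).isOpen.inter (D.isClopen_W _).isOpen
    obtain ⟨t, ht, h1, h2⟩ := D.exists_term ho (x := y) ⟨hy, hyi⟩
    exact D.base_backward hL ht h1 h2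
  · intro hxi
    exact D.base_forward hL hy hxi

instance : FirstCountableTopology D.X := by
  refine ⟨fun x => ?_⟩
  have hb : (𝓝 x).HasBasis (fun _ : ℕ => True) (fun N => {y : D.X | y.1 ∈ W D.b (D.U N x.1)}) := by
    refine ⟨fun s => ?_⟩
    constructor
    · intro hs
      obtain ⟨O, hO1, hO2, hO3⟩ := mem_nhds_iff.1 hs
      obtain ⟨N, hN⟩ := D.exists_U_subset hO2 hO3
      exact ⟨N, trivial, fun y hy => hO1 (hN y hy)⟩
    · rintro ⟨N, -, hN⟩
      exact Filter.mem_of_superset ((D.isClopen_W _).isOpen.mem_nhds (D.self_mem_U N x.1)) hN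
  exact hb.isCountablyGenerated

/-- for large precision only the root matters -/
theorem mem_W_of_large {m : ℕ} {g : κ} {τ : HH} {E : List (List Bool × κ)} {x : κ × HH}
    (hm : lev x.2.1 < m) (hx : x ∈ W D.b ⟨m, g, τ, E⟩) : g = x.1 ∧ Eqm m x.2 τ := by
  obtain ⟨p, h1, h2, h3, -⟩ := hx
  change Reach m x.2.1 p at h1
  have hp : p = [] := by
    cases p with
    | nil => rfl
    | cons c p =>
      exfalso
      rcases hx : x.2.1 with a | ⟨a, n, l, r⟩
      · rw [hx] at h1; simp at h1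
      · rw [hx] at h1 hm
        cases c
        · have := h1.1; simp only [lev] at hm; omega
        · have := h1.1; simp only [lev] at hm; omega
  subst hp
  rcases h2 with ⟨-, h2⟩ | ⟨h2, -⟩
  · refine ⟨h2, ?_⟩
    simpa using h3
  · exact absurd rfl h2

instance : T3Space D.X := by
  have h1 : Function.Injective D.F := by
    intro x y hxy
    by_contra hne
    have hne' : x.1 ≠ y.1 := fun h => hne (Subtype.ext h)
    have hW : ∀ i, (x.1 ∈ W D.b i ↔ y.1 ∈ W D.b i) := fun i => D.F_eq.1 (congrFun hxy i)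
    by_cases hz : x.1.2 = y.1.2
    · have h2 := (hW ⟨lev y.1.2.1 + 1, x.1.1, x.1.2, []⟩).1
        ⟨[], by simp, Or.inl ⟨rfl, rfl⟩, by simpa using Eqm.refl _ _, by simp⟩
      obtain ⟨h3, -⟩ := D.mem_W_of_large (Nat.lt_succ_self _) h2
      exact hne' (Prod.ext h3 hz)
    · obtain ⟨m, hm⟩ := exists_not_eqm hz
      have h2 := (hW ⟨m + lev y.1.2.1 + 1, x.1.1, x.1.2, []⟩).1
        ⟨[], by simp, Or.inl ⟨rfl, rfl⟩, by simpa using Eqm.refl _ _, by simp⟩
      obtain ⟨-, h3⟩ := D.mem_W_of_large (by omega) h2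
      exact hm _ (by omega) h3.symm
  exact (⟨D.inducing, h1⟩ : IsEmbedding D.F).t3Space

/-- rank 2 -/
theorem rank_two : ∃ 𝒰 : ℕ → Set (Set D.X),
        (∀ n, ∀ V ∈ 𝒰 n, IsOpen V) ∧ (∀ n, ⋃₀ 𝒰 n = Set.univ) ∧
        ∀ x y : D.X, x ≠ y → ∃ n, ¬ ∃ V ∈ 𝒰 n, ∃ W ∈ 𝒰 n, x ∈ V ∧ (V ∩ W).Nonempty ∧ y ∈ W := by
  refine ⟨fun m => range fun q : κ × HH => {x : D.X | x.1 ∈ W D.b ⟨m, q.1, q.2, []⟩}, ?_, ?_, ?_⟩
  · rintro m _ ⟨q, rfl⟩
    exact (D.isClopen_W _).isOpen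
  · intro m
    refine eq_univ_of_forall fun x => ?_
    exact ⟨_, ⟨x.1, rfl⟩, ⟨[], by simp, Or.inl ⟨rfl, rfl⟩, by simpa using Eqm.refl _ _, by simp⟩⟩
  · intro x y hne
    have hne' : x.1 ≠ y.1 := fun h => hne (Subtype.ext h)
    have hm : ∃ m, ∀ m', m ≤ m' → x.1.1 = y.1.1 → ¬ Eqm m' x.1.2 y.1.2 := by
      by_cases hz : x.1.2 = y.1.2
      · exact ⟨0, fun m' _ h => absurd (Prod.ext h hz) hne'⟩
      · obtain ⟨m, hm⟩ := exists_not_eqm hz
        exact ⟨m, fun m' h _ => hm m' h⟩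
    obtain ⟨m, hm⟩ := hm
    refine ⟨m + lev x.1.2.1 + lev y.1.2.1 + D.e x.1.1 y.1.1 + 1, ?_⟩
    set M := m + lev x.1.2.1 + lev y.1.2.1 + D.e x.1.1 y.1.1 + 1 with hM
    rintro ⟨_, ⟨q, rfl⟩, _, ⟨q', rfl⟩, hx, ⟨w, hw⟩, hy⟩
    obtain ⟨hx1, hx2⟩ := D.mem_W_of_large (by omega) hx
    obtain ⟨hy1, hy2⟩ := D.mem_W_of_large (by omega) hy
    have ho : IsOpen ({x : D.X | x.1 ∈ W D.b ⟨M, q.1, q.2, []⟩} ∩
        {x : D.X | x.1 ∈ W D.b ⟨M, q'.1, q'.2, []⟩}) :=
      (D.isClopen_W _).isOpen.inter (D.isClopen_W _).isOpen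
    obtain ⟨t, ht, h1, h2⟩ := D.exists_term ho hw
    change pt D.b t ∈ W D.b _ at h1 h2
    rw [pt_mem_W D.hb ht] at h1 h2
    obtain ⟨s, hs1, hs2, hs3, -⟩ := h1
    obtain ⟨s', hs1', hs2', hs3', -⟩ := h2
    change In M s t at hs1
    change In M s' t at hs1'
    change lab s = q.1 at hs2
    change lab s' = q'.1 at hs2'
    change Eqm M (emb D.b s) q.2 at hs3
    change Eqm M (emb D.b s') q'.2 at hs3'
    have e1 : Eqm M (emb D.b s) x.1.2 := hs3.trans hx2.symm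
    have e2 : Eqm M (emb D.b s') y.1.2 := hs3'.trans hy2.symm
    have l1 : lev s = lev x.1.2.1 := by rw [← e1.1, emb_fst, lev_map]
    have l2 : lev s' = lev y.1.2.1 := by rw [← e2.1, emb_fst, lev_map]
    have hss : s = s' := by
      rcases ht.cond M M le_rfl s s' hs1 hs1' with h | h | h
      · by_contra hcon
        have := h.le_lev hcon
        omega
      · by_contra hcon
        have := h.le_lev (Ne.symm hcon)
        omega
      · rw [hs2, hs2', hx1, hy1] at h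
        omega
    subst hss
    refine hm M (by omega) ?_ (e1.symm.trans e2)
    rw [← hx1, ← hy1, ← hs2, ← hs2']

theorem exists_K {O : Set D.X} (hO : IsOpen O) {t : Tm κ} (ht : Legit D.e t)
    (h : (⟨pt D.b t, pt_mem ht⟩ : D.X) ∈ O) :
    ∃ K, ∀ (u : Tm κ) (hu : Legit D.e u), In K t u → (⟨pt D.b u, pt_mem hu⟩ : D.X) ∈ O := by
  obtain ⟨N, hN⟩ := D.exists_U_subset hO h
  refine ⟨N, fun u hu hin => hN _ ?_⟩
  show pt D.b u ∈ W D.b (D.U N (pt D.b t))
  rw [pt_mem_W D.hb hu]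
  refine ⟨t, hin, rfl, Eqm.refl _ _, ?_⟩
  intro q hq
  rw [D.mem_U_E] at hq
  exact (lb_emb D.hb ht).1 hq

theorem isLindelof_fibre (g : κ) : IsLindelof {x : D.X | x.1.1 = g} := by
  classical
  rw [isLindelof_iff_countable_subcover]
  intro ι O hO hcov
  have h1 : ∀ z : HH, ∃ N, ∃ j : Option ι, ∀ y : D.X, y.1.1 = g → Eqm N z y.1.2 →
      Exact D.B z y.1.2 → ∃ i, j = some i ∧ y ∈ O i := by
    intro z
    by_cases hz : ((g, z) : κ × HH) ∈ Xset D.e D.b D.B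
    · obtain ⟨i, hi⟩ := mem_iUnion.1 (hcov (show (⟨(g, z), hz⟩ : D.X) ∈ {x : D.X | x.1.1 = g}
        from rfl))
      obtain ⟨J, hJ⟩ := D.exists_finite_of_open (hO i) hi
      choose N hN using fun i => LC.mem D.hB z g i
      obtain ⟨M, hM⟩ := (J.finite_toSet.image N).bddAbove
      refine ⟨M, some i, fun y hy1 hy2 hy3 => ⟨i, rfl, hJ y fun k hk => ?_⟩⟩
      have h5 : ((g, y.1.2) : κ × HH) ∈ W D.b k ↔ ((g, z) : κ × HH) ∈ W D.b k :=
        hN k y.1.2 (hy2.mono (hM ⟨k, hk, rfl⟩)) hy3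
      have e1 : ((g, y.1.2) : κ × HH) = y.1 := Prod.ext hy1.symm rfl
      rw [e1] at h5
      exact h5
    · have h2 : ∃ N, ∀ t, Legit D.e t → lab t = g → Eqm N z (emb D.b t) →
          ¬ Exact D.B z (emb D.b t) := by
        by_contra hcon
        push Not at hcon
        exact hz fun N => by
          obtain ⟨t, h1, h2, h3, h4⟩ := hcon N
          exact ⟨t, h1, h2, h3, h4⟩
      obtain ⟨N, hN⟩ := h2
      refine ⟨N, none, fun y hy1 hy2 hy3 => ?_⟩
      exfalso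
      obtain ⟨t, ht1, ht2, ht3, ht4⟩ := y.2 N
      refine hN t ht1 (ht2.trans hy1) (hy2.trans ht3) ?_
      intro p hp hpB
      have h3 := hy3 p hp hpB
      rw [← h3]
      refine ht4 p ?_ (by rw [h3]; exact hpB)
      rw [← hy2.1]; exact hp
  choose N j hNj using h1
  obtain ⟨C, hC, hC'⟩ := lind D.hG N
  refine ⟨{i | ∃ c ∈ C, j c = some i}, ?_, ?_⟩
  · have : {i | ∃ c ∈ C, j c = some i} ⊆ ⋃ c ∈ C, {i | j c = some i} := by
      rintro i ⟨c, hc, h⟩
      simp only [mem_iUnion]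
      exact ⟨c, hc, h⟩
    refine Countable.mono this (hC.biUnion fun c _ => ?_)
    refine Set.Subsingleton.countable ?_
    intro a ha b hb
    exact Option.some.inj (ha.symm.trans hb)
  · intro y hy
    obtain ⟨c, hc, h1, h2⟩ := hC' y.1.2
    obtain ⟨i, hi, hyi⟩ := hNj c y hy h1 h2
    simp only [mem_iUnion]
    exact ⟨i, ⟨c, hc, hi⟩, hyi⟩

theorem cellular [WellFoundedLT κ] (𝒰 : Set (Set D.X)) (h1 : ∀ U ∈ 𝒰, IsOpen U ∧ U.Nonempty)
    (h2 : 𝒰.PairwiseDisjoint id) :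
    ∃ L : Set D.X, IsLindelof L ∧ ∀ U ∈ 𝒰, (L ∩ U).Nonempty := by
  classical
  have h3 : ∀ U : 𝒰, ∃ (t : Tm κ) (K : ℕ), Legit D.e t ∧
      ∀ (u : Tm κ) (hu : Legit D.e u), In K t u → (⟨pt D.b u, pt_mem hu⟩ : D.X) ∈ U.1 := by
    intro U
    obtain ⟨hO, x, hx⟩ := h1 U.1 U.2
    obtain ⟨t, ht, htU⟩ := D.exists_term hO hx
    obtain ⟨K, hK⟩ := D.exists_K hO ht htU
    exact ⟨t, K, ht, hK⟩
  choose t K ht hK using h3
  have hcard : #𝒰 ≤ 𝔠 := by
    by_contra hcon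
    rw [not_le, ← Order.succ_le_iff, ← D.hk] at hcon
    obtain ⟨φ⟩ := hcon
    obtain ⟨ξ, η, hne, u, hu, hu1, hu2⟩ := amalgam D.hk D.hI D.hes D.he (fun ξ => t (φ ξ))
      (fun ξ => ht _) (fun ξ => K (φ ξ))
    have m1 := hK (φ ξ) u hu hu1
    have m2 := hK (φ η) u hu hu2
    have hne' : (φ ξ).1 ≠ (φ η).1 := fun h => hne (φ.injective (Subtype.ext h))
    exact Set.disjoint_left.1 (h2 (φ ξ).2 (φ η).2 hne') m1 m2
  obtain ⟨g, hg⟩ := bdd D.hk D.hI (range fun U : 𝒰 => lab (t U))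
    (Cardinal.mk_range_le.trans hcard)
  refine ⟨{x : D.X | x.1.1 = g}, D.isLindelof_fibre g, fun U hU => ?_⟩
  have hL : Legit D.e (node g (K ⟨U, hU⟩) (t ⟨U, hU⟩) (t ⟨U, hU⟩)) :=
    legit_dup (ht _) (hg _ ⟨⟨U, hU⟩, rfl⟩) _
  refine ⟨⟨pt D.b _, pt_mem hL⟩, rfl, ?_⟩
  refine hK ⟨U, hU⟩ _ hL ?_
  rw [in_node]
  exact Or.inr ⟨le_rfl, Or.inl (In.refl _ _)⟩

theorem large : ¬ #D.X ≤ 𝔠 := by
  intro h
  have h1 : Function.Injective fun g : κ =>
      (⟨pt D.b (leaf g), pt_mem (e := D.e) (t := leaf g) trivial⟩ : D.X) := by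
    intro g g' hgg
    exact congrArg (fun x : D.X => x.1.1) hgg
  have h2 := (Cardinal.mk_le_of_injective h1).trans h
  rw [D.hk] at h2
  exact absurd h2 (not_le.2 (Order.lt_succ _))

end Data

end Pool.Agent.TH566.CL
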